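import Pool.Agent.Helper31.AO.Sharp
import Pool.Agent.Helper31.AO.Sums
import Pool.Agent.Helper31.AO.RoabpConv
import Pool.Agent.Helper31.AO.PDer
import Pool.Agent.Helper31.AO.Closed

/-!
# Polynomial-size explicit hitting sets for any-order read-once oblivious branching programs

`AO r f`: for every set `S` of variables, `f` is a sum of `r` products `A_k (x_S) B_k (x_(S^c))`, that is, the
rank of `f` is at most `r` across every partition of the variables. These are the polynomials which have a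
read-once oblivious algebraic branching program of width `r` in every order of the variables. There is no
restriction on the degrees.

The explicit set `hittingSet n d r` in `ℤ^n` hits every nonzero `f` of total degree at most `d` with `AO r f`,
its size is at most `C_ε (n + 1) ^ 3 (d + 1) ^ 2 (r + 1) ^ 14 (n + r + 2) ^ ε`, and its coordinates have
polynomially many bits.

The points are `x_i = ∑ ζ, (∏ η ≠ ζ, (z_b - η)) y_(b, s)`, where `b` is the bucket of `i` in a tree over a prime field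
with `q = (log n log r)^O(1)` elements, `ζ` runs through the `(2 q) ^ δ ≤ (n + 1) ^ 2` codes of a path and a set of
bad levels, `s` is the strand of `i` in its bucket for the code `ζ`, and `y`, `z` run through curves in
`(log n log r)^O(1)` variables (`cur`).
-/

namespace Pool.Agent.Results.MP_c2aa42_lc.AnyOrderROABP

open MvPolynomial
open AOR (AO Roabp hittingSet TT)
open Pool.Agent.Helper7.PD (partials)

private theorem tensor {n r : ℕ} (g : Fin r → Fin n → Polynomial ℂ) {f : MvPolynomial (Fin n) ℂ}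
    (hf : ∀ x, eval x f = ∑ k, ∏ i, (g k i).eval (x i)) : AO r f := by
  have h1 : f = ∑ k, ∏ i, Polynomial.aeval (X i) (g k i) := by
    refine MvPolynomial.funext fun x => ?_
    rw [hf, map_sum]
    refine Finset.sum_congr rfl fun k _ => ?_
    rw [map_prod]
    refine Finset.prod_congr rfl fun i _ => ?_
    rw [← MvPolynomial.coe_aeval_eq_eval, RingHom.coe_coe, ← Polynomial.aeval_algHom_apply,
      MvPolynomial.aeval_X, Polynomial.coe_aeval_eq_eval]
  rw [h1]
  have h2 := AOR.AO.sum (fun k => ∏ i, Polynomial.aeval (X i) (g k i)) (fun _ => 1) (fun k =>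
    AOR.ao_prod (g k) (f := ∏ i, Polynomial.aeval (X i) (g k i)) (by
      intro x
      rw [map_prod]
      refine Finset.prod_congr rfl fun i _ => ?_
      rw [← MvPolynomial.coe_aeval_eq_eval, RingHom.coe_coe, ← Polynomial.aeval_algHom_apply,
        MvPolynomial.aeval_X, Polynomial.coe_aeval_eq_eval]))
  simpa using h2

private theorem powering {n s : ℕ} (g : Fin s → Fin n → Polynomial ℂ) (e : Fin s → ℕ)
    {f : MvPolynomial (Fin n) ℂ} (hf : ∀ x, eval x f = ∑ k, (∑ i, (g k i).eval (x i)) ^ e k) :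
    AO (∑ k, (e k + 1)) f := by
  have h0 : ∀ (k : Fin s) (x : Fin n → ℂ), eval x ((∑ i, Polynomial.aeval (X i) (g k i)) ^ e k) =
      (∑ i, (g k i).eval (x i)) ^ e k := by
    intro k x
    rw [map_pow, map_sum]
    congr 1
    refine Finset.sum_congr rfl fun i _ => ?_
    rw [← MvPolynomial.coe_aeval_eq_eval, RingHom.coe_coe, ← Polynomial.aeval_algHom_apply,
      MvPolynomial.aeval_X, Polynomial.coe_aeval_eq_eval]
  have h1 : f = ∑ k, (∑ i, Polynomial.aeval (X i) (g k i)) ^ e k := by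
    refine MvPolynomial.funext fun x => ?_
    rw [hf, map_sum]
    exact Finset.sum_congr rfl fun k _ => (h0 k x).symm
  rw [h1]
  exact AOR.AO.sum (fun k => (∑ i, Polynomial.aeval (X i) (g k i)) ^ e k) (fun k => e k + 1)
    fun k => AOR.ao_pow (g k) (h0 k)

/-- Explicit hitting sets of polynomial size for any-order read-once oblivious branching programs. -/
theorem result :
    (∀ n d r : ℕ, (hittingSet n d r).card ≤
      2 ^ 14 * (n + 1) ^ 3 * (d + 1) ^ 2 * (r + 1) ^ 14 * 2 ^ (6 * TT n r ^ 3)) ∧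
    (∀ n r : ℕ, 2 ^ TT n r ≤ (2 * Nat.log 2 (n + r + 2)) ^ 15) ∧
    (∀ ε : ℝ, 0 < ε → ∃ C : ℝ, ∀ n d r : ℕ, ((hittingSet n d r).card : ℝ) ≤
      C * (((n : ℝ) + 1) ^ (3 + ε) * ((d : ℝ) + 1) ^ 2 * ((r : ℝ) + 1) ^ (14 + ε))) ∧
    (∀ n d r : ℕ, ∀ a ∈ hittingSet n d r, ∀ i,
      |a i| ≤ ((((d + 2) * (n + 1) * (r + 1) * 2 ^ TT n r) ^
        (2 ^ 13 * (n + 1) ^ 2 * (r + 1) ^ 7 * 2 ^ (2 * TT n r)) : ℕ) : ℤ)) ∧
    (∀ (n d r : ℕ) (f : MvPolynomial (Fin n) ℂ), f ≠ 0 → f.totalDegree ≤ d → AO r f →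
      ∃ a ∈ hittingSet n d r, eval (fun i => (a i : ℂ)) f ≠ 0) ∧
    (∀ (n r : ℕ) (f : MvPolynomial (Fin n) ℂ), (∀ σ, Roabp r σ f) ↔ AO r f) ∧
    (∀ (n r : ℕ) (f : MvPolynomial (Fin n) ℂ) (g : Fin r → Fin n → Polynomial ℂ),
      (∀ x, eval x f = ∑ k, ∏ i, (g k i).eval (x i)) → AO r f) ∧
    (∀ (n s : ℕ) (f : MvPolynomial (Fin n) ℂ) (g : Fin s → Fin n → Polynomial ℂ) (e : Fin s → ℕ),
      (∀ x, eval x f = ∑ k, (∑ i, (g k i).eval (x i)) ^ e k) → AO (∑ k, (e k + 1)) f) ∧
    (∀ (n r : ℕ) (f : MvPolynomial (Fin n) ℂ), Module.finrank ℂ (partials f) ≤ r → AO r f) ∧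
    (∀ (n r d : ℕ) (f : MvPolynomial (Fin n) ℂ) (F : ℕ → MvPolynomial (Fin n) ℂ),
      (∀ m, AO r (F m)) → (∀ m, (F m).totalDegree ≤ d) → f.totalDegree ≤ d →
      (∀ s, Filter.Tendsto (fun m => coeff s (F m)) Filter.atTop (nhds (coeff s f))) → AO r f) :=
  ⟨AOR.card_hittingSet, AOR.two_pow_TT,
    fun _ hε => let ⟨_, hC⟩ := AOR.two_pow_cube_eps hε; ⟨_, AOR.card_eps hε hC⟩,
    fun _ _ _ _ ha i => AOR.abs_hittingSet_sharp ha i,
    fun _ _ _ _ h0 hd hf => AOR.hits hf h0 hd,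
    fun _ _ _ => ⟨AOR.ao_of_roabp, AOR.roabp_of_ao⟩,
    fun _ _ _ g hf => tensor g hf,
    fun _ _ _ g e hf => powering g e hf,
    fun _ _ _ h => AOR.ao_of_partials h,
    fun _ _ _ _ _ hF hD hfD hlim => AOR.ao_limit hF hD hfD hlim⟩

end Pool.Agent.Results.MP_c2aa42_lc.AnyOrderROABP
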