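import Mathlib
import Pool.Agent.Helper62.VT.LowDeg
import Pool.Agent.Helper62.VT.Separable

/-!
# Polynomial-size explicit hitting sets for depth-4 circuits with constant top fan-in and constant
bottom degree

The factors considered here are arbitrary polynomials `F(A_1, ..., A_κ)` in `κ` polynomials of degree
at most `δ` (for `κ = 1`, `F = X` these are the polynomials of degree at most `δ`). The explicit
finite set `hittingSet n r κ δ d` of integer points hits every nonzero polynomial of total degree at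
most `d` in `n` variables over the complex numbers which is a polynomial in products of such
factors, no `r + 1` of these products being algebraically independent. In particular it hits every
nonzero sum of at most `r` products of polynomials of degree at most `δ`, i.e. every nonzero
polynomial computed by a `ΣΠΣΠ(r, δ)` circuit; the number of factors is not bounded. Its size is at
most `(d n + 1) ^ (2 K)` with `K = r + κ (δ + 1) (r + 1) ^ (δ + 1)`.
-/

namespace Pool.Agent.Results.MP_c2aa42_lc.DepthFour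

/-- The vector with coordinates `∑ j, z j * ∏ l ≠ i, (w j - l)` for `i = 0, ..., n - 1`. -/
def vec (n K : ℕ) (z w : Fin K → ℤ) (i : Fin n) : ℤ :=
  ∑ j, z j * ∏ l ∈ Finset.univ.erase i, (w j - ((l : ℕ) : ℤ))

/-- The number of blocks `r + κ (δ + 1) (r + 1) ^ (δ + 1)`. -/
def blocks (r κ δ : ℕ) : ℕ := r + κ * (δ + 1) * (r + 1) ^ (δ + 1)

/-- The hitting set: all the points `vec n K z w` with `K = blocks r κ δ` and all entries of `z, w`
in `{0, 1, ..., d n}`. -/
def hittingSet (n r κ δ d : ℕ) : Finset (Fin n → ℤ) :=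
  (Finset.univ : Finset ((Fin (blocks r κ δ) → Fin (d * n + 1)) ×
    (Fin (blocks r κ δ) → Fin (d * n + 1)))).image fun c =>
      vec n (blocks r κ δ) (fun j => ((c.1 j : ℕ) : ℤ)) (fun j => ((c.2 j : ℕ) : ℤ))

/-- The factors: arbitrary polynomials in `κ` polynomials of total degree at most `δ`. -/
def Factors (n κ δ : ℕ) : Set (MvPolynomial (Fin n) ℂ) :=
  {f | ∃ (A : Fin κ → MvPolynomial (Fin n) ℂ) (F : MvPolynomial (Fin κ) ℂ),
    (∀ j, (A j).totalDegree ≤ δ) ∧ f = MvPolynomial.aeval A F}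

/-- Finite products of factors. -/
noncomputable def Products (n κ δ : ℕ) : Submonoid (MvPolynomial (Fin n) ℂ) :=
  Submonoid.closure (Factors n κ δ)

/-- Polynomials in products of factors, where no `r + 1` of the products are algebraically
independent (no condition if there are at most `r` products). -/
def Circuits (n r κ δ : ℕ) : Set (MvPolynomial (Fin n) ℂ) :=
  {f | ∃ (m : ℕ) (P : Fin m → MvPolynomial (Fin n) ℂ) (g : MvPolynomial (Fin m) ℂ),
    (∀ i, P i ∈ Products n κ δ) ∧
    (∀ s : Fin (r + 1) ↪ Fin m, ¬ AlgebraicIndependent ℂ fun i => P (s i)) ∧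
    f = MvPolynomial.aeval P g}

open Pool.Agent.Helper62.VT

theorem blocks_eq (r κ δ : ℕ) : r + (MD r κ δ * δ + MD r κ δ) = blocks r κ δ := by
  rw [MD, blocks]
  ring

theorem hittingSet_eq (n r κ δ d : ℕ) :
    hittingSet n r κ δ d = gpts n (blocks r κ δ) (d * n) := rfl

theorem hits {n r κ δ d : ℕ} {f : MvPolynomial (Fin n) ℂ} (hf : f ∈ Circuits n r κ δ)
    (hd : f.totalDegree ≤ d) (h0 : f ≠ 0) :
    ∃ a ∈ hittingSet n r κ δ d, MvPolynomial.eval (fun i => ((a i : ℤ) : ℂ)) f ≠ 0 := by
  obtain ⟨m, P, g, hP, hr, rfl⟩ := hf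
  obtain ⟨a, ha, hne⟩ := deg_hits (κ := κ) (δ := δ) P hP (by
    intro s hs
    exact hr ⟨s, fun i j hij => hs.injective (by simp only [hij])⟩ hs) g h0 hd
  refine ⟨a, ?_, hne⟩
  rw [hittingSet_eq, ← blocks_eq]
  exact pts_zero_subset _ _ _ ha

theorem sum_mem {n r κ δ : ℕ} (P : Fin r → MvPolynomial (Fin n) ℂ)
    (hP : ∀ i, P i ∈ Products n κ δ) : ∑ i, P i ∈ Circuits n r κ δ := by
  refine ⟨r, P, ∑ i, MvPolynomial.X i, hP, ?_, ?_⟩
  · intro s
    have h := Fintype.card_le_of_embedding s
    rw [Fintype.card_fin, Fintype.card_fin] at h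
    omega
  · rw [map_sum]
    exact Finset.sum_congr rfl fun i _ => (MvPolynomial.aeval_X _ _).symm

/-- Explicit hitting sets of size polynomial in `n` and `d`, for all fixed `r, κ` and `δ`: size,
coordinates, hitting property, and two subclasses (sums of `r` products of factors; sums of `r`
products of polynomials of degree at most `δ`). -/
theorem result (n r κ δ d : ℕ) :
    (hittingSet n r κ δ d).card ≤ (d * n + 1) ^ (2 * blocks r κ δ) ∧
    (∀ a ∈ hittingSet n r κ δ d, ∀ i, |a i| ≤ blocks r κ δ * (d * n) * (d * n + n) ^ n) ∧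
    (∀ f ∈ Circuits n r κ δ, f.totalDegree ≤ d → f ≠ 0 →
      ∃ a ∈ hittingSet n r κ δ d, MvPolynomial.eval (fun i => ((a i : ℤ) : ℂ)) f ≠ 0) ∧
    (∀ h : Fin r → List (MvPolynomial (Fin n) ℂ), (∀ i, ∀ q ∈ h i, q ∈ Factors n κ δ) →
      ∑ i, (h i).prod ∈ Circuits n r κ δ) ∧
    (∀ h : Fin r → List (MvPolynomial (Fin n) ℂ), (∀ i, ∀ q ∈ h i, q.totalDegree ≤ δ) →
      ∑ i, (h i).prod ∈ Circuits n r 1 δ) := by
  have h4 : ∀ κ' : ℕ, ∀ h : Fin r → List (MvPolynomial (Fin n) ℂ),
      (∀ i, ∀ q ∈ h i, q ∈ Factors n κ' δ) → ∑ i, (h i).prod ∈ Circuits n r κ' δ := by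
    intro κ' h hh
    exact sum_mem _ fun i => Submonoid.list_prod_mem _ fun q hq =>
      Submonoid.subset_closure (hh i q hq)
  refine ⟨?_, ?_, fun f hf hd h0 => hits hf hd h0, h4 κ, ?_⟩
  · rw [hittingSet_eq]
    exact gpts_card _ _ _
  · intro a ha i
    rw [hittingSet_eq] at ha
    obtain ⟨⟨z, w⟩, -, rfl⟩ := Finset.mem_image.1 ha
    have h := G_bound n (blocks r κ δ) (d * n) z w i
    push_cast at h ⊢
    exact h
  · intro h hh
    refine h4 1 h fun i q hq => ⟨fun _ => q, MvPolynomial.X 0, fun _ => hh i q hq, ?_⟩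
    rw [MvPolynomial.aeval_X]

end Pool.Agent.Results.MP_c2aa42_lc.DepthFour
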