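import Pool.Agent.Helper50.Diag.Bounds

/-!
Explicit hitting sets for sums of `s` `d`-th powers of affine forms over `ℂ`
(diagonal depth-3 circuits), of size `2^30 n s^10 d^9 2^(11⌊s/d⌋)`; this is polynomial in
`n` and `d` when `s ≤ C d log₂(n d)` with `C` fixed.
-/

namespace Pool.Agent.Results.MP_c2aa42_lc.DiagonalCircuits

open Pool.Agent.Helper50.Diag

theorem result (n s d : ℕ) (hn : 1 ≤ n) (hs : 1 ≤ s) (hd : 1 ≤ d) :
    (∀ f : MvPolynomial (Fin n) ℂ, IsDiag n s d f → f ≠ 0 →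
      ∃ p ∈ H n s d, MvPolynomial.eval (fun k => (p k : ℂ)) f ≠ 0) ∧
    (H n s d).card ≤ 2 ^ 30 * n * s ^ 10 * d ^ 9 * 2 ^ (11 * (s / d)) ∧
    (∀ p ∈ H n s d, ∀ k, 0 ≤ p k ∧
      p k < 2 ^ (2 ^ 30 * n ^ 2 * s ^ 10 * d ^ 9 * 2 ^ (11 * (s / d)))) ∧
    (∀ C : ℕ, s ≤ C * d * Nat.log 2 (n * d) → 2 ^ (11 * (s / d)) ≤ (n * d) ^ (11 * C)) := by
  refine ⟨fun f hf hf0 => hits n s d hd f hf hf0, card_H_le n s d hn hs hd, ?_,
    fun C hC => pow_log_bound n s d C hn hd hC⟩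
  intro p hp k
  unfold H at hp
  rw [Finset.mem_image] at hp
  obtain ⟨⟨t, a, τ⟩, hx, rfl⟩ := hp
  simp only [Finset.mem_product, Finset.mem_range] at hx
  exact ⟨pt_nonneg _ _ _ _ _ _ _, pt_lt n s d t a τ hn hs hd hx.1 hx.2.2 k⟩

end Pool.Agent.Results.MP_c2aa42_lc.DiagonalCircuits
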