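import Mathlib
import Pool.Agent.Helper7.PD.Out

/-!
# Polynomial-size explicit hitting sets for small spaces of partial derivatives

The explicit finite set `hittingSet n d r` of at most `2 ^ 12 * (d * n + 1) * r ^ 13` points of `ℕ ^ n`
hits every nonzero complex polynomial in `n` variables of total degree at most `d` whose iterated
partial derivatives (all orders, the polynomial itself included) span a space of dimension at most
`r`. In particular it hits every nonzero sum of `s` polynomials, each a polynomial of degree at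
most `d` in `κ` affine forms, as soon as `s * (d + 1) ^ κ ≤ r`; for `κ = 1` these are the diagonal
depth-3 circuits.
-/

namespace Pool.Agent.Results.MP_c2aa42_lc.LowPartials

open MvPolynomial

/-- The curve of level `t` with leaf weights `y 0, ..., y (2 ^ t - 1)`. Level `0`: the moment curve
`z ↦ y 0 * (1, z, z ^ 2, ...)`. Level `t + 1`: the curve of level `t` with the first half of the weights
at the point `z ^ Δ t` plus the curve of level `t` with the second half at the point `z ^ Δ t + z`. -/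
def curve (n : ℕ) (Δ : ℕ → ℕ) : ℕ → (ℕ → ℕ) → ℕ → Fin n → ℕ
  | 0, y, z => fun i => y 0 * z ^ (i : ℕ)
  | t + 1, y, z => fun i =>
      curve n Δ t y (z ^ Δ t) i + curve n Δ t (fun k => y (k + 2 ^ t)) (z ^ Δ t + z) i

/-- The number of levels. -/
def levels (r : ℕ) : ℕ := Nat.clog 2 (2 * Nat.clog 2 r)

/-- The exponents `Δ`. -/
def delta (r t : ℕ) : ℕ := 2 ^ (Nat.clog 2 r / 2 ^ ((levels r - 1 - t) / 2 - 1) + 1)

/-- The weights: all `y : Fin (2 ^ T) → {0, ..., r}` with `∏ (y k + 1) ≤ r`. -/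
def weights (T r : ℕ) : Finset (Fin (2 ^ T) → ℕ) :=
  (Fintype.piFinset fun _ => Finset.range (r + 1)).filter fun y => ∏ k, (y k + 1) ≤ r

/-- The hitting set: the points `u = 0, 1, ..., 2 ^ 8 * (d * n) * r ^ 7` of all the curves of the last
level whose weights `y` satisfy `∏ (y k + 1) ≤ r`. -/
def hittingSet (n d r : ℕ) : Finset (Fin n → ℕ) :=
  (weights (levels r) r ×ˢ Finset.range (2 ^ 8 * (d * n) * r ^ 7 + 1)).image fun c =>
    curve n (delta r) (levels r) (fun k => if h : k < 2 ^ levels r then c.1 ⟨k, h⟩ else 0) c.2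

/-- The span of all iterated partial derivatives of `f`, `f` itself included. -/
noncomputable def partials {n : ℕ} (f : MvPolynomial (Fin n) ℂ) :
    Submodule ℂ (MvPolynomial (Fin n) ℂ) :=
  Submodule.span ℂ {g | ∃ l : List (Fin n), g = l.foldr (fun i h => pderiv i h) f}

theorem curve_eq (n : ℕ) (Δ : ℕ → ℕ) (t : ℕ) : ∀ (y : ℕ → ℕ) (z : ℕ),
    curve n Δ t y z = Pool.Agent.Helper7.PD.crv n Δ t y z := by
  induction t with
  | zero =>
    intro y z
    rfl
  | succ t ih =>
    intro y z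
    funext i
    change curve n Δ t y (z ^ Δ t) i + curve n Δ t (fun k => y (k + 2 ^ t)) (z ^ Δ t + z) i = _
    rw [ih, ih]
    rfl

theorem hittingSet_eq (n d r : ℕ) :
    hittingSet n d r = Pool.Agent.Helper7.PD.hittingSet n d r := by
  rw [hittingSet]
  simp only [curve_eq]
  rfl

/-- **The theorem.** -/
theorem result (n d r : ℕ) :
    (hittingSet n d r).card ≤ 2 ^ 12 * (d * n + 1) * r ^ 13 ∧
    (∀ a ∈ hittingSet n d r, ∀ i,
      a i ≤ r * (2 ^ 8 * (d * n) * r ^ 7 + 2) ^ (2 ^ 10 * n * r ^ 8)) ∧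
    (∀ f : MvPolynomial (Fin n) ℂ, f.totalDegree ≤ d → Module.finrank ℂ (partials f) ≤ r →
      f ≠ 0 → ∃ a ∈ hittingSet n d r, eval (fun i => ((a i : ℕ) : ℂ)) f ≠ 0) ∧
    (∀ s κ : ℕ, s * (d + 1) ^ κ ≤ r → ∀ (l : Fin s → Fin κ → MvPolynomial (Fin n) ℂ)
      (F : Fin s → MvPolynomial (Fin κ) ℂ), (∀ i j, (l i j).totalDegree ≤ 1) →
      (∀ i, (F i).totalDegree ≤ d) → ∑ i, aeval (l i) (F i) ≠ 0 →
      ∃ a ∈ hittingSet n d r, eval (fun i => ((a i : ℕ) : ℂ)) (∑ i, aeval (l i) (F i)) ≠ 0) := by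
  rw [hittingSet_eq]
  exact Pool.Agent.Helper7.PD.final n d r

end Pool.Agent.Results.MP_c2aa42_lc.LowPartials
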