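import Mathlib
import Pool.Agent.Helper62.RK.Final

/-!
# Explicit hitting sets for read-k formulas

An arithmetic formula reads a variable at most `k` times if the variable occurs in at most `k`
leaves. The leaves may be labelled by arbitrary polynomials in at most `c` variables; no
multilinearity is assumed. The rank of a formula is `0` for leaves; at a product gate whose two
subformulas have the same odd rank `ρ` it is `ρ + 1`; at a sum gate whose two subformulas have a
variable in common it is the least odd number which is at least the ranks of the two subformulas; at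
all other gates it is the maximum of the ranks of the two subformulas. Read-once formulas have
rank `0`; the rank is at most twice the overlap depth (the maximal number on a path of gates whose
two subformulas have a variable in common) and at most `2 log₂ (k n)`, where `n` is the number of
variables.

The factors considered are arbitrary polynomials `F(A_1, ..., A_κ)` in `κ` polynomials computed by
formulas with at most `k` reads and rank at most `R`. The explicit finite set
`hittingSet n r κ c k R d` of integer points hits every nonzero polynomial of total degree at most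
`d` which is a polynomial in products of such factors, no `r + 1` of these products being
algebraically independent. Its size is at most `(d n + 1) ^ (2 blocks r κ c k R)`, where
`blocks r κ c k R = blocks r κ c k 0 + (k + 1) (R / 2) + R % 2`. So the size is polynomial in `n`
and `d` for constant `r, κ, c, k, R`, and for constant `r, κ, c, k` one gets hitting sets of
quasipolynomial size for all formulas with at most `k` reads.
-/

namespace Pool.Agent.Results.MP_c2aa42_lc.ReadFormulas

/-- The vector with coordinates `∑ j, z j * ∏ l ≠ i, (w j - l)` for `i = 0, ..., n - 1`. -/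
def vec (n K : ℕ) (z w : Fin K → ℤ) (i : Fin n) : ℤ :=
  ∑ j, z j * ∏ l ∈ Finset.univ.erase i, (w j - ((l : ℕ) : ℤ))

/-- `width 0 = 1`, `width (k + 1) = 2 (width k) ^ 2 + width k`. -/
def width : ℕ → ℕ
  | 0 => 1
  | k + 1 => 2 * width k ^ 2 + width k

/-- `window c N 0 = 1`, `window c N (q + 1) = 2 (window c N q) + 2 N + c`. -/
def window (c N : ℕ) : ℕ → ℕ
  | 0 => 1
  | q + 1 => 2 * window c N q + 2 * N + c

/-- `loss c 0 N = N`, `loss c (k + 1) N = loss c k N + window c (L + 1) (2 ^ (2 N))`, where
`L = loss c k (loss c k (loss c k N))`. -/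
def loss (c : ℕ) : ℕ → ℕ → ℕ
  | 0, N => N
  | k + 1, N => loss c k N + window c (loss c k (loss c k (loss c k N)) + 1) (2 ^ (2 * N))

/-- `base c 0 = c`, `base c (k + 1) = T + (base c k + 1)`, where `T` is the value of the fourfold
iterate of `loss c k` at `4 (width k) ^ 2`. -/
def base (c : ℕ) : ℕ → ℕ
  | 0 => c
  | k + 1 => (loss c k)^[4] (4 * width k ^ 2) + (base c k + 1)

/-- The number of seeds for `k` reads and rank `R`. -/
def seeds (c k R : ℕ) : ℕ := base c k + (k + 1) * (R / 2) + R % 2

/-- The loss for derivatives: the `2 ^ k`-fold iterate of `N ↦ loss c k (N + k c)`. -/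
def loss' (c k : ℕ) : ℕ → ℕ := (fun N => loss c k (N + k * c))^[2 ^ k]

/-- The number `M = (r + 1) κ (2 ^ (k r) + k r c)`. -/
def params (r κ c k : ℕ) : ℕ := (r + 1) * (κ * (2 ^ (k * r) + k * r * c))

/-- The number of blocks for `M` parameters: `M + L + seeds c k R`, where `L` is the value of the
`M ^ 2`-fold iterate of `loss' c k` at `M! (2 ^ k width k) ^ M`. -/
def blocksFor (c k R M : ℕ) : ℕ :=
  M + (loss' c k)^[M * M] (M.factorial * (2 ^ k * width k) ^ M) + seeds c k R

/-- The number of blocks. -/
def blocks (r κ c k R : ℕ) : ℕ := r + blocksFor c k R (params r κ c k)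

/-- The hitting set: all the points `vec n K z w` with `K = blocks r κ c k R` and all entries of
`z, w` in `{0, 1, ..., d n}`. -/
def hittingSet (n r κ c k R d : ℕ) : Finset (Fin n → ℤ) :=
  (Finset.univ : Finset ((Fin (blocks r κ c k R) → Fin (d * n + 1)) ×
    (Fin (blocks r κ c k R) → Fin (d * n + 1)))).image fun x =>
      vec n (blocks r κ c k R) (fun j => ((x.1 j : ℕ) : ℤ)) (fun j => ((x.2 j : ℕ) : ℤ))

/-- Arithmetic formulas: the leaves are labelled by polynomials, the gates are additions and
multiplications. -/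
inductive Formula (n : ℕ) : Type
  | leaf (T : MvPolynomial (Fin n) ℂ) : Formula n
  | add (f g : Formula n) : Formula n
  | mul (f g : Formula n) : Formula n

namespace Formula

variable {n : ℕ}

/-- The variables occurring at the leaves of a formula. -/
noncomputable def vars : Formula n → Finset (Fin n)
  | leaf T => T.vars
  | add f g => f.vars ∪ g.vars
  | mul f g => f.vars ∪ g.vars

/-- All leaves are polynomials in at most `c` variables. -/
def LeafBound (c : ℕ) : Formula n → Prop
  | leaf T => T.vars.card ≤ c
  | add f g => f.LeafBound c ∧ g.LeafBound c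
  | mul f g => f.LeafBound c ∧ g.LeafBound c

/-- The number of leaves in which the variable `i` occurs. -/
noncomputable def reads (i : Fin n) : Formula n → ℕ
  | leaf T => if i ∈ T.vars then 1 else 0
  | add f g => f.reads i + g.reads i
  | mul f g => f.reads i + g.reads i

/-- The rank: `0` for leaves; at a product gate whose two subformulas have the same odd rank `ρ` it
is `ρ + 1`; at a sum gate whose two subformulas have a variable in common it is the least odd number
which is at least both ranks; at all other gates it is the maximum of both ranks. -/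
noncomputable def rank : Formula n → ℕ
  | leaf _ => 0
  | add f g => if Disjoint f.vars g.vars then max f.rank g.rank
      else 2 * (max f.rank g.rank / 2) + 1
  | mul f g => if f.rank = g.rank ∧ f.rank % 2 = 1 then f.rank + 1 else max f.rank g.rank

/-- The overlap depth: the maximal number, over all paths from the output to a leaf, of gates whose
two subformulas have a variable in common. -/
noncomputable def overlap : Formula n → ℕ
  | leaf _ => 0
  | add f g => max f.overlap g.overlap + if Disjoint f.vars g.vars then 0 else 1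
  | mul f g => max f.overlap g.overlap + if Disjoint f.vars g.vars then 0 else 1

/-- The polynomial computed by a formula. -/
noncomputable def poly : Formula n → MvPolynomial (Fin n) ℂ
  | leaf T => T
  | add f g => f.poly + g.poly
  | mul f g => f.poly * g.poly

end Formula

/-- Polynomials computed by formulas in which every variable occurs in at most `k` leaves, all
leaves are polynomials in at most `c` variables and the rank is at most `R`. -/
def Computed (n c k R : ℕ) : Set (MvPolynomial (Fin n) ℂ) :=
  {f | ∃ F : Formula n, F.LeafBound c ∧ (∀ i, F.reads i ≤ k) ∧ F.rank ≤ R ∧ F.poly = f}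

/-- Polynomials computed by formulas in which every variable occurs in at most `k` leaves and all
leaves are polynomials in at most `c` variables. -/
def ReadK (n c k : ℕ) : Set (MvPolynomial (Fin n) ℂ) :=
  {f | ∃ F : Formula n, F.LeafBound c ∧ (∀ i, F.reads i ≤ k) ∧ F.poly = f}

/-- Arbitrary polynomials in `κ` polynomials of `Q`. -/
def Factors (n κ : ℕ) (Q : Set (MvPolynomial (Fin n) ℂ)) : Set (MvPolynomial (Fin n) ℂ) :=
  {f | ∃ (A : Fin κ → MvPolynomial (Fin n) ℂ) (F : MvPolynomial (Fin κ) ℂ),
    (∀ j, A j ∈ Q) ∧ f = MvPolynomial.aeval A F}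

/-- Finite products of factors. -/
noncomputable def Products (n κ : ℕ) (Q : Set (MvPolynomial (Fin n) ℂ)) :
    Submonoid (MvPolynomial (Fin n) ℂ) :=
  Submonoid.closure (Factors n κ Q)

/-- Polynomials in products of factors, where no `r + 1` of the products are algebraically
independent (no condition if there are at most `r` products). -/
def Circuits (n r κ : ℕ) (Q : Set (MvPolynomial (Fin n) ℂ)) : Set (MvPolynomial (Fin n) ℂ) :=
  {f | ∃ (m : ℕ) (P : Fin m → MvPolynomial (Fin n) ℂ) (g : MvPolynomial (Fin m) ℂ),
    (∀ i, P i ∈ Products n κ Q) ∧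
    (∀ s : Fin (r + 1) ↪ Fin m, ¬ AlgebraicIndependent ℂ fun i => P (s i)) ∧
    f = MvPolynomial.aeval P g}

open Pool.Agent.Helper62.VT (gpts gpts_card G_bound)
open Pool.Agent.Helper62.RK (Fm RkFactors rk_hits Pol)

/-! ### Translation -/

namespace Formula

variable {n : ℕ}

/-- The corresponding formula of the library. -/
def toFm : Formula n → Fm n
  | leaf T => Fm.leaf T
  | add f g => Fm.add f.toFm g.toFm
  | mul f g => Fm.mul f.toFm g.toFm

theorem toFm_vars (F : Formula n) : F.toFm.vars = F.vars := by
  induction F with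
  | leaf T => rfl
  | add f g ihf ihg => rw [toFm, Fm.vars, vars, ihf, ihg]
  | mul f g ihf ihg => rw [toFm, Fm.vars, vars, ihf, ihg]

theorem toFm_poly (F : Formula n) : F.toFm.poly = F.poly := by
  induction F with
  | leaf T => rfl
  | add f g ihf ihg => rw [toFm, Fm.poly, poly, ihf, ihg]
  | mul f g ihf ihg => rw [toFm, Fm.poly, poly, ihf, ihg]

theorem toFm_rank (F : Formula n) : F.toFm.rank = F.rank := by
  induction F with
  | leaf T => rfl
  | add f g ihf ihg => rw [toFm, Fm.rank, rank, ihf, ihg, toFm_vars, toFm_vars]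
  | mul f g ihf ihg => rw [toFm, Fm.rank, rank, ihf, ihg]

theorem toFm_occ (F : Formula n) (i : Fin n) : F.toFm.occ i = F.reads i := by
  induction F with
  | leaf T => rfl
  | add f g ihf ihg => rw [toFm, Fm.occ, reads, ihf, ihg]
  | mul f g ihf ihg => rw [toFm, Fm.occ, reads, ihf, ihg]

theorem toFm_lb {c : ℕ} (F : Formula n) (h : F.LeafBound c) : F.toFm.LB c := by
  induction F with
  | leaf T => exact h
  | add f g ihf ihg => exact ⟨ihf h.1, ihg h.2⟩
  | mul f g ihf ihg => exact ⟨ihf h.1, ihg h.2⟩

theorem reads_pos {F : Formula n} {i : Fin n} : i ∈ F.vars ↔ 0 < F.reads i := by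
  rw [← toFm_vars, ← toFm_occ, Fm.mem_vars_iff]

/-- The number of leaves which are not constants. -/
noncomputable def size : Formula n → ℕ
  | leaf T => if T.vars = ∅ then 0 else 1
  | add f g => f.size + g.size
  | mul f g => f.size + g.size

theorem size_le (F : Formula n) : F.size ≤ ∑ i, F.reads i := by
  induction F with
  | leaf T =>
    rw [size]
    split_ifs with h
    · exact Nat.zero_le _
    · obtain ⟨v, hv⟩ := Finset.nonempty_iff_ne_empty.2 h
      have h1 : (leaf T).reads v = 1 := by rw [reads, if_pos hv]
      rw [← h1]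
      exact Finset.single_le_sum (f := fun i => (leaf T).reads i) (fun _ _ => Nat.zero_le _)
        (Finset.mem_univ v)
  | add f g ihf ihg =>
    have h : ∑ i, (add f g).reads i = ∑ i, f.reads i + ∑ i, g.reads i := by
      rw [← Finset.sum_add_distrib]
      exact Finset.sum_congr rfl fun i _ => rfl
    rw [h, size]
    omega
  | mul f g ihf ihg =>
    have h : ∑ i, (mul f g).reads i = ∑ i, f.reads i + ∑ i, g.reads i := by
      rw [← Finset.sum_add_distrib]
      exact Finset.sum_congr rfl fun i _ => rfl
    rw [h, size]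
    omega

theorem size_pos {F : Formula n} (h : F.vars.Nonempty) : 1 ≤ F.size := by
  induction F with
  | leaf T =>
    have h1 : T.vars ≠ ∅ := h.ne_empty
    rw [size, if_neg h1]
  | add f g ihf ihg =>
    rw [vars, Finset.union_nonempty] at h
    rw [size]
    rcases h with h | h
    · have := ihf h
      omega
    · have := ihg h
      omega
  | mul f g ihf ihg =>
    rw [vars, Finset.union_nonempty] at h
    rw [size]
    rcases h with h | h
    · have := ihf h
      omega
    · have := ihg h
      omega

theorem two_pow_rank_le (F : Formula n) (h : 1 ≤ F.rank) : 2 ^ (F.rank / 2 + 1) ≤ F.size := by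
  induction F with
  | leaf T =>
    rw [rank] at h
    omega
  | add f g ihf ihg =>
    have hmax : ∀ r, r / 2 = max f.rank g.rank / 2 → 1 ≤ max f.rank g.rank →
        2 ^ (r / 2 + 1) ≤ (add f g).size := by
      intro r h1 h2
      rw [h1, size]
      rcases max_cases f.rank g.rank with ⟨e, -⟩ | ⟨e, -⟩
      · rw [e] at h2 ⊢
        have := ihf h2
        omega
      · rw [e] at h2 ⊢
        have := ihg h2
        omega
    rw [rank] at h ⊢
    by_cases hd : Disjoint f.vars g.vars
    · rw [if_pos hd] at h ⊢
      exact hmax _ rfl h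
    · rw [if_neg hd] at h ⊢
      by_cases h1 : 1 ≤ max f.rank g.rank
      · exact hmax _ (by omega) h1
      · have h2 : max f.rank g.rank = 0 := by omega
        rw [h2]
        rw [Finset.not_disjoint_iff] at hd
        obtain ⟨v, h3, h4⟩ := hd
        have h5 := size_pos ⟨v, h3⟩
        have h6 := size_pos ⟨v, h4⟩
        rw [size]
        norm_num
        omega
  | mul f g ihf ihg =>
    rw [rank] at h ⊢
    by_cases hd : f.rank = g.rank ∧ f.rank % 2 = 1
    · rw [if_pos hd] at h ⊢
      have h1 := ihf (by omega)
      have h2 := ihg (by omega)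
      have h3 : (f.rank + 1) / 2 = f.rank / 2 + 1 := by omega
      rw [← hd.1] at h2
      rw [h3, size, pow_succ]
      omega
    · rw [if_neg hd] at h ⊢
      rw [size]
      rcases max_cases f.rank g.rank with ⟨e, -⟩ | ⟨e, -⟩
      · rw [e] at h ⊢
        have := ihf h
        omega
      · rw [e] at h ⊢
        have := ihg h
        omega

/-- The rank is at most logarithmic. -/
theorem rank_le_log {k : ℕ} (F : Formula n) (hF : ∀ i, F.reads i ≤ k) :
    F.rank ≤ 2 * Nat.log 2 (k * n) := by
  by_cases h : 1 ≤ F.rank
  · have h1 := F.two_pow_rank_le h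
    have h2 : ∑ i, F.reads i ≤ k * n := by
      have h3 := Finset.sum_le_card_nsmul (Finset.univ : Finset (Fin n)) (fun i => F.reads i) k
        fun i _ => hF i
      rw [Finset.card_univ, Fintype.card_fin, smul_eq_mul, mul_comm] at h3
      exact h3
    have h4 : 2 ^ (F.rank / 2 + 1) ≤ k * n := h1.trans (F.size_le.trans h2)
    have h5 : F.rank / 2 + 1 ≤ Nat.log 2 (k * n) := by
      apply Nat.le_log_of_pow_le (by norm_num) h4
    omega
  · omega

theorem rank_le_overlap (F : Formula n) : F.rank ≤ 2 * F.overlap := by
  induction F with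
  | leaf T => exact Nat.zero_le _
  | add f g ihf ihg =>
    rw [rank, overlap]
    split_ifs <;> omega
  | mul f g ihf ihg =>
    rw [rank, overlap]
    split_ifs <;> omega

theorem reads_le_overlap (F : Formula n) (i : Fin n) : F.reads i ≤ 2 ^ F.overlap := by
  have key : ∀ (f g : Formula n) (m : ℕ), (m = max f.overlap g.overlap + if Disjoint f.vars g.vars
      then 0 else 1) → f.reads i ≤ 2 ^ f.overlap → g.reads i ≤ 2 ^ g.overlap →
      f.reads i + g.reads i ≤ 2 ^ m := by
    intro f g m hm h1 h2
    have h3 : 2 ^ f.overlap ≤ 2 ^ (max f.overlap g.overlap) :=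
      Nat.pow_le_pow_right (by norm_num) (le_max_left _ _)
    have h4 : 2 ^ g.overlap ≤ 2 ^ (max f.overlap g.overlap) :=
      Nat.pow_le_pow_right (by norm_num) (le_max_right _ _)
    by_cases hd : Disjoint f.vars g.vars
    · rw [if_pos hd, add_zero] at hm
      rw [hm]
      have h5 : f.reads i = 0 ∨ g.reads i = 0 := by
        by_contra hcon
        push Not at hcon
        exact Finset.disjoint_left.1 hd (reads_pos.2 (Nat.pos_of_ne_zero hcon.1))
          (reads_pos.2 (Nat.pos_of_ne_zero hcon.2))
      omega
    · rw [if_neg hd] at hm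
      rw [hm, pow_succ]
      omega
  induction F with
  | leaf T =>
    rw [reads, overlap]
    split_ifs
    · exact le_rfl
    · exact Nat.zero_le _
  | add f g ihf ihg => exact key f g _ rfl ihf ihg
  | mul f g ihf ihg => exact key f g _ rfl ihf ihg

end Formula

theorem pol_of_mem {n c k R : ℕ} {f : MvPolynomial (Fin n) ℂ} (hf : f ∈ Computed n c k R) :
    Pol n c k R f := by
  obtain ⟨F, h1, h2, h3, rfl⟩ := hf
  exact ⟨F.toFm, ⟨F.toFm_lb h1, fun i => by rw [F.toFm_occ]; exact h2 i,
    by rw [F.toFm_rank]; exact h3⟩, F.toFm_poly⟩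

theorem width_eq (k : ℕ) : Pool.Agent.Helper62.RK.wd k = width k := by
  induction k with
  | zero => rfl
  | succ k ih => rw [Pool.Agent.Helper62.RK.wd, width, ih]

theorem window_eq (c N q : ℕ) : Pool.Agent.Helper62.RK.win c N q = window c N q := by
  induction q with
  | zero => rfl
  | succ q ih => rw [Pool.Agent.Helper62.RK.win, window, ih]

theorem loss_eq (c k : ℕ) : Pool.Agent.Helper62.RK.bt c k = loss c k := by
  induction k with
  | zero => funext N; rfl
  | succ k ih =>
    funext N
    rw [Pool.Agent.Helper62.RK.bt, loss, ih, window_eq]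

theorem base_eq (c k : ℕ) : Pool.Agent.Helper62.RK.base c k = base c k := by
  induction k with
  | zero => rfl
  | succ k ih =>
    rw [Pool.Agent.Helper62.RK.base, base, ih, Pool.Agent.Helper62.RK.tt, loss_eq, width_eq]

theorem seeds_eq (c k R : ℕ) : Pool.Agent.Helper62.RK.hl c k R = seeds c k R := by
  rw [Pool.Agent.Helper62.RK.hl, Pool.Agent.Helper62.RK.lev, seeds, base_eq]

theorem loss'_eq (c k : ℕ) : Pool.Agent.Helper62.RK.bt1 c k = loss' c k := by
  rw [Pool.Agent.Helper62.RK.bt1, loss', loss_eq]

theorem blocks_eq (r κ c k R : ℕ) : r + Pool.Agent.Helper62.RK.KR c k R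
    ((r + 1) * (κ * Pool.Agent.Helper62.RK.par c k r)) = blocks r κ c k R := by
  rw [blocks, blocksFor, params, Pool.Agent.Helper62.RK.KR, Pool.Agent.Helper62.RK.suppK,
    seeds_eq, loss'_eq, Pool.Agent.Helper62.RK.wd1, width_eq, Pool.Agent.Helper62.RK.par]

theorem blocks_rank (r κ c k R : ℕ) :
    blocks r κ c k R = blocks r κ c k 0 + (k + 1) * (R / 2) + R % 2 := by
  rw [blocks, blocks, blocksFor, blocksFor, seeds, seeds]
  simp only [Nat.zero_div, Nat.zero_mod, mul_zero, add_zero]
  omega

theorem hittingSet_eq (n r κ c k R d : ℕ) :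
    hittingSet n r κ c k R d = gpts n (blocks r κ c k R) (d * n) := rfl

theorem hits {n r κ c k R d : ℕ} (hc : 1 ≤ c) (hk : 1 ≤ k) {f : MvPolynomial (Fin n) ℂ}
    (hf : f ∈ Circuits n r κ (Computed n c k R)) (hd : f.totalDegree ≤ d) (h0 : f ≠ 0) :
    ∃ a ∈ hittingSet n r κ c k R d, MvPolynomial.eval (fun i => ((a i : ℤ) : ℂ)) f ≠ 0 := by
  obtain ⟨m, P, g, hP, hr, rfl⟩ := hf
  have hsub : Factors n κ (Computed n c k R) ⊆ RkFactors n c k R κ := by
    rintro f ⟨A, F, hA, rfl⟩
    exact ⟨A, F, fun j => pol_of_mem (hA j), rfl⟩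
  have h := rk_hits hc hk (κ := κ) P (fun i => Submonoid.closure_mono hsub (hP i)) (by
    intro s hs
    exact hr ⟨s, fun i j hij => hs.injective (by simp only [hij])⟩ hs) g h0 hd
  rw [blocks_eq] at h
  rw [hittingSet_eq]
  exact h

theorem readK_subset (n c k : ℕ) : ReadK n c k ⊆ Computed n c k (2 * Nat.log 2 (k * n)) := by
  rintro f ⟨F, h1, h2, h3⟩
  exact ⟨F, h1, h2, F.rank_le_log h2, h3⟩

theorem circuits_mono {n r κ : ℕ} {Q Q' : Set (MvPolynomial (Fin n) ℂ)} (h : Q ⊆ Q') :
    Circuits n r κ Q ⊆ Circuits n r κ Q' := by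
  rintro f ⟨m, P, g, hP, hr, hf⟩
  refine ⟨m, P, g, fun i => Submonoid.closure_mono ?_ (hP i), hr, hf⟩
  rintro f ⟨A, F, hA, e⟩
  exact ⟨A, F, fun j => h (hA j), e⟩

theorem sum_mem {n r κ : ℕ} {Q : Set (MvPolynomial (Fin n) ℂ)}
    (P : Fin r → MvPolynomial (Fin n) ℂ) (hP : ∀ i, P i ∈ Products n κ Q) :
    ∑ i, P i ∈ Circuits n r κ Q := by
  refine ⟨r, P, ∑ i, MvPolynomial.X i, hP, ?_, ?_⟩
  · intro s
    have h := Fintype.card_le_of_embedding s
    rw [Fintype.card_fin, Fintype.card_fin] at h
    omega
  · rw [map_sum]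
    exact Finset.sum_congr rfl fun i _ => (MvPolynomial.aeval_X _ _).symm

theorem size_bound (n r κ c k d : ℕ) :
    (hittingSet n r κ c k (2 * Nat.log 2 (k * n)) d).card ≤
      (d * n + 1) ^ (2 * (blocks r κ c k 0 + (k + 1) * Nat.log 2 (k * n))) := by
  have h := gpts_card n (blocks r κ c k (2 * Nat.log 2 (k * n))) (d * n)
  rw [← hittingSet_eq, blocks_rank] at h
  have h1 : 2 * Nat.log 2 (k * n) / 2 = Nat.log 2 (k * n) := by omega
  have h2 : 2 * Nat.log 2 (k * n) % 2 = 0 := by omega
  rwa [h1, h2, add_zero] at h

/-- Explicit hitting sets for formulas with at most `k` reads of each variable and rank at most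
`R`, whose leaves are polynomials in at most `c` variables: size (polynomial in `n, d` for constant
`r, κ, c, k, R`), coordinates, hitting property; the number of blocks grows linearly with the rank;
the rank of a formula with at most `k` reads is at most `2 log₂ (k n)`, so for all formulas with at
most `k` reads one gets hitting sets of size `(d n + 1) ^ (2 (B + (k + 1) log₂ (k n)))` with
`B = blocks r κ c k 0`; formulas of overlap depth `Δ` have at most `2 ^ Δ` reads and rank at most
`2 Δ`; sums of `r` products of factors and sums of `r` multiples of powers are among the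
circuits. -/
theorem result (n r κ c k R d : ℕ) (hc : 1 ≤ c) (hk : 1 ≤ k) :
    (hittingSet n r κ c k R d).card ≤ (d * n + 1) ^ (2 * blocks r κ c k R) ∧
    (∀ a ∈ hittingSet n r κ c k R d, ∀ i,
      |a i| ≤ blocks r κ c k R * (d * n) * (d * n + n) ^ n) ∧
    (∀ f ∈ Circuits n r κ (Computed n c k R), f.totalDegree ≤ d → f ≠ 0 →
      ∃ a ∈ hittingSet n r κ c k R d, MvPolynomial.eval (fun i => ((a i : ℤ) : ℂ)) f ≠ 0) ∧
    blocks r κ c k R = blocks r κ c k 0 + (k + 1) * (R / 2) + R % 2 ∧
    (∀ F : Formula n, (∀ i, F.reads i ≤ k) → F.rank ≤ 2 * Nat.log 2 (k * n)) ∧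
    ((hittingSet n r κ c k (2 * Nat.log 2 (k * n)) d).card ≤
      (d * n + 1) ^ (2 * (blocks r κ c k 0 + (k + 1) * Nat.log 2 (k * n)))) ∧
    (∀ f ∈ Circuits n r κ (ReadK n c k), f.totalDegree ≤ d → f ≠ 0 →
      ∃ a ∈ hittingSet n r κ c k (2 * Nat.log 2 (k * n)) d,
        MvPolynomial.eval (fun i => ((a i : ℤ) : ℂ)) f ≠ 0) ∧
    (∀ F : Formula n, F.rank ≤ 2 * F.overlap ∧ ∀ i, F.reads i ≤ 2 ^ F.overlap) ∧
    (∀ (Q : Set (MvPolynomial (Fin n) ℂ)) (h : Fin r → List (MvPolynomial (Fin n) ℂ)),
      (∀ i, ∀ q ∈ h i, q ∈ Factors n κ Q) → ∑ i, (h i).prod ∈ Circuits n r κ Q) ∧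
    (∀ (Q : Set (MvPolynomial (Fin n) ℂ)) (a : Fin r → ℂ) (e : Fin r → ℕ)
      (q : Fin r → MvPolynomial (Fin n) ℂ), (∀ i, q i ∈ Q) →
        ∑ i, MvPolynomial.C (a i) * q i ^ e i ∈ Circuits n r 1 Q) := by
  refine ⟨?_, ?_, fun f hf hd h0 => hits hc hk hf hd h0, blocks_rank r κ c k R,
    fun F hF => F.rank_le_log hF, size_bound n r κ c k d,
    fun f hf hd h0 => hits hc hk (circuits_mono (readK_subset n c k) hf) hd h0,
    fun F => ⟨F.rank_le_overlap, F.reads_le_overlap⟩, ?_, ?_⟩
  · rw [hittingSet_eq]
    exact gpts_card _ _ _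
  · intro a ha i
    rw [hittingSet_eq] at ha
    obtain ⟨⟨z, w⟩, -, rfl⟩ := Finset.mem_image.1 ha
    have h := G_bound n (blocks r κ c k R) (d * n) z w i
    push_cast at h ⊢
    exact h
  · intro Q h hh
    exact sum_mem _ fun i => Submonoid.list_prod_mem _ fun q hq =>
      Submonoid.subset_closure (hh i q hq)
  · intro Q a e q hq
    refine sum_mem _ fun i => Submonoid.mul_mem _ (Submonoid.subset_closure ?_)
      (Submonoid.pow_mem _ (Submonoid.subset_closure ?_) _)
    · exact ⟨fun _ => q i, MvPolynomial.C (a i), fun _ => hq i, by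
        rw [MvPolynomial.aeval_C, MvPolynomial.algebraMap_eq]⟩
    · exact ⟨fun _ => q i, MvPolynomial.X 0, fun _ => hq i, by rw [MvPolynomial.aeval_X]⟩

end Pool.Agent.Results.MP_c2aa42_lc.ReadFormulas
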