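import Mathlib
import Pool.Agent.Helper4.RK.Factors
import Pool.Agent.Helper4.RK.Form

/-!
# Polynomial-size explicit hitting sets for sums of few products of constant-width programs reading
every variable a constant number of times

A program of width `w` is a product of `w × w` matrices, each of which depends on one variable (its
entries are univariate polynomials), between two constant vectors. The matrices may read the
variables in any order and every variable may be read by at most `k` of the matrices, at arbitrary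
positions. The case `k = 1` gives the read-once oblivious branching programs (ROABPs) in arbitrary
order; sums and products of `k` ROABPs in different orders, `k`-pass programs and formulas of bounded
depth with unbounded fan-in, in which every variable occurs at most `k` times (for which hitting sets
of polynomial size are known), are read-`k` programs of bounded width.

The factors considered here are arbitrary polynomials `F(A_1, ..., A_q)` in `q` polynomials
computed by such programs. The explicit finite set `hittingSet n r q w k d` of integer points hits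
every nonzero polynomial of total degree at most `d` which is a polynomial in products of such
factors, no `r + 1` of these products being algebraically independent. In particular it hits every
nonzero sum of at most `r` products of read-`k` programs of width `w`; the number and the degrees of
the factors are not bounded. For constant `r, q, w, k` its size is polynomial in `n` and `d`.
-/

namespace Pool.Agent.Results.MP_c2aa42_lc.ReadKFactors

/-- The vector with coordinates `∑ j, z j * ∏ l ≠ i, (w j - l)` for `i = 0, ..., n - 1`. -/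
def vec (n K : ℕ) (z w : Fin K → ℤ) (i : Fin n) : ℤ :=
  ∑ j, z j * ∏ l ∈ Finset.univ.erase i, (w j - ((l : ℕ) : ℤ))

/-- The number `T(W) = (2 W + 2) ^ (W + 1) + 1`. -/
def T (W : ℕ) : ℕ := (2 * W + 2) ^ (W + 1) + 1

/-- The numbers `C(0, t) = t` and `C(k + 1, t) = t (C(k, C(k, t² + 1)) + 1)`. -/
def cluster : ℕ → ℕ → ℕ
  | 0, t => t
  | k + 1, t => t * (cluster k (cluster k (t * t + 1)) + 1)

/-- The number `N(k, w) = C(k, T(((w + 1) ^ (2 ^ k))²) + 1) + 2`. -/
def changes (k w : ℕ) : ℕ := cluster k (T (((w + 1) ^ 2 ^ k) ^ 2) + 1) + 2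

/-- The number `L(k, w) = ∑ s = 1, ..., w of N(k, w ^ s)`. -/
def level (k w : ℕ) : ℕ := ∑ s ∈ Finset.range w, changes k (w ^ (s + 1))

/-- The number `M = (r + 1) q (r k + 1) w²`. -/
def params (r q w k : ℕ) : ℕ := (r + 1) * (q * ((r * k + 1) * w ^ 2))

/-- The number of blocks `K = r + M + 1 + L(M! M k, M! (2 w) ^ M)`. -/
def blocks (r q w k : ℕ) : ℕ :=
  r + params r q w k + 1 + level ((params r q w k).factorial * (params r q w k * k))
    ((params r q w k).factorial * (2 * w) ^ params r q w k)

/-- The hitting set: all the points `vec n K z w'`, with `K = blocks r q w k` and all entries of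
`z, w'` in `{0, 1, ..., d n}`. -/
def hittingSet (n r q w k d : ℕ) : Finset (Fin n → ℤ) :=
  (Finset.univ : Finset ((Fin (blocks r q w k) → Fin (d * n + 1)) ×
    (Fin (blocks r q w k) → Fin (d * n + 1)))).image fun c =>
      vec n (blocks r q w k) (fun j => ((c.1 j : ℕ) : ℤ)) (fun j => ((c.2 j : ℕ) : ℤ))

/-- The product `A_1(x_{v 1}) ⋯ A_N(x_{v N})` of the matrices of a list; every entry of the list is
a variable together with a `w × w` matrix of univariate polynomials. -/
noncomputable def prodMatrix {n w : ℕ}
    (L : List (Fin n × Matrix (Fin w) (Fin w) (Polynomial ℂ))) :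
    Matrix (Fin w) (Fin w) (MvPolynomial (Fin n) ℂ) :=
  (L.map fun p => p.2.map
    fun q => Polynomial.aeval (MvPolynomial.X p.1 : MvPolynomial (Fin n) ℂ) q).prod

/-- Polynomials `f = uᵀ A_1(x_{v 1}) ⋯ A_N(x_{v N}) v'` computed by programs of width `w` reading
every variable at most `k` times. -/
def Programs (n w k : ℕ) : Set (MvPolynomial (Fin n) ℂ) :=
  {f | ∃ (L : List (Fin n × Matrix (Fin w) (Fin w) (Polynomial ℂ))) (u v : Fin w → ℂ),
    (∀ i, (L.map Prod.fst).count i ≤ k) ∧
    f = ∑ i, ∑ j, MvPolynomial.C (u i) * prodMatrix L i j * MvPolynomial.C (v j)}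

/-- The factors: arbitrary polynomials in `q` polynomials of `Programs n w k`. -/
def Factors (n q w k : ℕ) : Set (MvPolynomial (Fin n) ℂ) :=
  {f | ∃ (A : Fin q → MvPolynomial (Fin n) ℂ) (F : MvPolynomial (Fin q) ℂ),
    (∀ j, A j ∈ Programs n w k) ∧ f = MvPolynomial.aeval A F}

/-- Finite products of factors. -/
noncomputable def Products (n q w k : ℕ) : Submonoid (MvPolynomial (Fin n) ℂ) :=
  Submonoid.closure (Factors n q w k)

/-- Polynomials in products of factors, where no `r + 1` of the products are algebraically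
independent (no condition if there are at most `r` products). -/
def Circuits (n r q w k : ℕ) : Set (MvPolynomial (Fin n) ℂ) :=
  {f | ∃ (m : ℕ) (P : Fin m → MvPolynomial (Fin n) ℂ) (g : MvPolynomial (Fin m) ℂ),
    (∀ i, P i ∈ Products n q w k) ∧
    (∀ s : Fin (r + 1) ↪ Fin m, ¬ AlgebraicIndependent ℂ fun i => P (s i)) ∧
    f = MvPolynomial.aeval P g}

/-- `Formula n D L f`: the polynomial `f` is computed by a formula of depth at most `D` with gates
`+` and `×` of any fan-in, whose leaves, from left to right, are univariate polynomials in the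
variables of the list `L` (a gate with a single input may pad the depth). -/
inductive Formula (n : ℕ) : ℕ → List (Fin n) → MvPolynomial (Fin n) ℂ → Prop
  | leaf (i : Fin n) (p : Polynomial ℂ) :
      Formula n 0 [i] (Polynomial.aeval (MvPolynomial.X i : MvPolynomial (Fin n) ℂ) p)
  | sum {D m : ℕ} {L : Fin m → List (Fin n)} {f : Fin m → MvPolynomial (Fin n) ℂ}
      (h : ∀ j, Formula n D (L j) (f j)) : Formula n (D + 1) (List.ofFn L).flatten (∑ j, f j)
  | prod {D m : ℕ} {L : Fin m → List (Fin n)} {f : Fin m → MvPolynomial (Fin n) ℂ}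
      (h : ∀ j, Formula n D (L j) (f j)) : Formula n (D + 1) (List.ofFn L).flatten (∏ j, f j)

theorem T_eq (W : ℕ) : T W = Pool.Agent.Helper4.RO.Tb W := rfl

theorem cluster_eq : ∀ k t : ℕ, cluster k t = Pool.Agent.Helper91.Clus.TT k t := by
  intro k
  induction k with
  | zero => intro t; rfl
  | succ k ih => intro t; rw [cluster, Pool.Agent.Helper91.Clus.TT, ih, ih]

theorem level_eq (k w : ℕ) : level k w = Pool.Agent.Helper4.RK.levR k w := by
  rw [level, Pool.Agent.Helper4.RK.levR]
  refine Finset.sum_congr rfl fun s _ => ?_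
  rw [changes, Pool.Agent.Helper4.RK.trn, cluster_eq, T_eq]

theorem blocks_eq (r q w k : ℕ) : blocks r q w k = Pool.Agent.Helper4.RK.KF r q w k := by
  rw [blocks, level_eq, Pool.Agent.Helper4.RK.KF, Pool.Agent.Helper4.RK.Kmin]
  have h2 : params r q w k = Pool.Agent.Helper4.RK.MF r q w k := rfl
  rw [h2]
  omega

open Pool.Agent.Helper62.VT (pts)

theorem mem_pts_iff (n K b : ℕ) (a : Fin n → ℤ) : a ∈ pts n K (fun _ _ => 0) b ↔
    a ∈ (Finset.univ : Finset ((Fin K → Fin (b + 1)) × (Fin K → Fin (b + 1)))).image fun c =>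
      vec n K (fun j => ((c.1 j : ℕ) : ℤ)) (fun j => ((c.2 j : ℕ) : ℤ)) := by
  rw [pts, Finset.mem_image, Finset.mem_image]
  constructor
  · rintro ⟨⟨t, z, w⟩, -, rfl⟩
    refine ⟨(z, w), Finset.mem_univ _, ?_⟩
    funext l
    exact (zero_add _).symm
  · rintro ⟨⟨z, w⟩, -, rfl⟩
    refine ⟨(0, z, w), Finset.mem_univ _, ?_⟩
    funext l
    exact zero_add _

theorem hits {n r q w k d : ℕ} (hw : 1 ≤ w) {f : MvPolynomial (Fin n) ℂ}
    (hf : f ∈ Circuits n r q w k) (hd : f.totalDegree ≤ d) (h0 : f ≠ 0) :
    ∃ a ∈ hittingSet n r q w k d, MvPolynomial.eval (fun i => ((a i : ℤ) : ℂ)) f ≠ 0 := by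
  obtain ⟨m, P, g, hP, hr, rfl⟩ := hf
  obtain ⟨a, ha, h⟩ := Pool.Agent.Helper4.RK.factors_hit (q := q) (k := k) hw P hP
    (fun s hs => hr ⟨s, fun i j hij => hs.injective (by simp only [hij])⟩ hs) g h0 hd
  refine ⟨a, ?_, h⟩
  rw [mem_pts_iff, ← blocks_eq] at ha
  exact ha

theorem sum_mem {n r q w k : ℕ} (P : Fin r → MvPolynomial (Fin n) ℂ)
    (hP : ∀ i, P i ∈ Products n q w k) : ∑ i, P i ∈ Circuits n r q w k := by
  refine ⟨r, P, ∑ i, MvPolynomial.X i, hP, ?_, ?_⟩
  · intro s
    have h := Fintype.card_le_of_embedding s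
    rw [Fintype.card_fin, Fintype.card_fin] at h
    omega
  · rw [map_sum]
    exact Finset.sum_congr rfl fun i _ => (MvPolynomial.aeval_X _ _).symm

theorem formula_pf {n D : ℕ} {L : List (Fin n)} {f : MvPolynomial (Fin n) ℂ}
    (h : Formula n D L f) : Pool.Agent.Helper4.RK.PF (Fin (2 * D + 1)) L f := by
  induction h with
  | leaf i p => exact Pool.Agent.Helper4.RK.PF.leaf i p
  | @sum D m L f h ih =>
    exact (Pool.Agent.Helper4.RK.PF.sum_fin ih).reindex
      (finSumFinEquiv.trans (finCongr (by ring)))
  | @prod D m L f h ih =>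
    have h1 : ∀ j, Pool.Agent.Helper4.RK.PF (Fin (2 * (D + 1) + 1)) (L j) (f j) := by
      intro j
      have h2 := Pool.Agent.Helper4.RK.PF.sum_fin (m := 1) (L := fun _ => L j)
        (f := fun _ => f j) fun _ => ih j
      simp only [List.ofFn_succ, List.ofFn_zero, List.flatten_cons, List.flatten_nil,
        List.append_nil, Finset.univ_unique, Finset.sum_const, Finset.card_singleton, one_smul]
        at h2
      exact h2.reindex (finSumFinEquiv.trans (finCongr (by ring)))
    exact Pool.Agent.Helper4.RK.PF.prod_fin h1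

/-- Explicit hitting sets of size polynomial in `n` and `d`, for all fixed `r, q, k` and `w ≥ 1`:
size, coordinates, hitting property, and three subclasses (sums of `r` products of factors; sums of
`r` products of read-`k` programs of width `w`; formulas of depth `D` in which every variable occurs
at most `k` times, which are read-`k` programs of width `2 D + 1`). -/
theorem result (n r q w k d : ℕ) (hw : 1 ≤ w) :
    (hittingSet n r q w k d).card ≤ (d * n + 1) ^ (2 * blocks r q w k) ∧
    (∀ a ∈ hittingSet n r q w k d, ∀ i, |a i| ≤ blocks r q w k * (d * n) * (d * n + n) ^ n) ∧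
    (∀ f ∈ Circuits n r q w k, f.totalDegree ≤ d → f ≠ 0 →
      ∃ a ∈ hittingSet n r q w k d, MvPolynomial.eval (fun i => ((a i : ℤ) : ℂ)) f ≠ 0) ∧
    (∀ h : Fin r → List (MvPolynomial (Fin n) ℂ), (∀ i, ∀ f ∈ h i, f ∈ Factors n q w k) →
      ∑ i, (h i).prod ∈ Circuits n r q w k) ∧
    (∀ h : Fin r → List (MvPolynomial (Fin n) ℂ), (∀ i, ∀ f ∈ h i, f ∈ Programs n w k) →
      ∑ i, (h i).prod ∈ Circuits n r 1 w k) ∧
    (∀ (D : ℕ) (L : List (Fin n)) (f : MvPolynomial (Fin n) ℂ), Formula n D L f →
      (∀ i, L.count i ≤ k) → f ∈ Programs n (2 * D + 1) k) := by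
  have h4 : ∀ q' : ℕ, ∀ h : Fin r → List (MvPolynomial (Fin n) ℂ),
      (∀ i, ∀ f ∈ h i, f ∈ Factors n q' w k) → ∑ i, (h i).prod ∈ Circuits n r q' w k := by
    intro q' h hh
    exact sum_mem _ fun i => Submonoid.list_prod_mem _ fun f hf =>
      Submonoid.subset_closure (hh i f hf)
  refine ⟨?_, ?_, fun f hf hd h0 => hits hw hf hd h0, h4 q, ?_, ?_⟩
  · refine Finset.card_image_le.trans (le_of_eq ?_)
    rw [Finset.card_univ, Fintype.card_prod, Fintype.card_fun, Fintype.card_fin, Fintype.card_fin]
    ring
  · intro a ha i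
    obtain ⟨⟨z, w'⟩, -, rfl⟩ := Finset.mem_image.1 ha
    have h1 := Pool.Agent.Helper62.VT.G_bound n (blocks r q w k) (d * n) z w' i
    push_cast at h1 ⊢
    exact h1
  · intro h hh
    refine h4 1 h fun i f hf => ⟨fun _ => f, MvPolynomial.X 0, fun _ => hh i f hf, ?_⟩
    rw [MvPolynomial.aeval_X]
  · intro D L f hf hL
    exact (formula_pf hf).rki hL

end Pool.Agent.Results.MP_c2aa42_lc.ReadKFactors
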