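import Mathlib
import Pool.Agent.Helper91.Ov.Final

/-!
# Polynomial-size explicit hitting sets for products of formulas of bounded overlap depth

A gate of an arithmetic formula overlaps if its two subformulas have a variable in common. The
overlap depth of a formula is the maximal number of overlapping gates on a path from the output to
a leaf; it is `0` for read-once formulas. The leaves may be labelled by arbitrary polynomials in at
most `k` variables. The factors considered are arbitrary polynomials `F(A_1, ..., A_κ)` in `κ`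
polynomials computed by formulas of overlap depth at most `Δ`. The explicit finite set
`hittingSet n r κ k Δ d` of integer points hits every nonzero polynomial of total degree at most `d`
which is a polynomial in products of such factors, no `r + 1` of these products being algebraically
independent. In particular it hits every nonzero sum of at most `r` products (or powers) of such
formulas; the number of factors is not bounded. Its size is at most
`(d n + 1) ^ (2 blocks r κ k Δ)`, which is polynomial in `n` and `d` for constant `r, κ, k, Δ`.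
-/

namespace Pool.Agent.Results.MP_c2aa42_lc.ReadOnceFactors

/-- The vector with coordinates `∑ j, z j * ∏ l ≠ i, (w j - l)` for `i = 0, ..., n - 1`. -/
def vec (n K : ℕ) (z w : Fin K → ℤ) (i : Fin n) : ℤ :=
  ∑ j, z j * ∏ l ∈ Finset.univ.erase i, (w j - ((l : ℕ) : ℤ))

/-- `width 0 = 2`, `width (Δ + 1) = (width Δ) ^ 2 + 1`. -/
def width : ℕ → ℕ
  | 0 => 2
  | Δ + 1 => width Δ ^ 2 + 1

/-- `loss k 0 N = 2 (N + k + 1) 2 ^ 2 ^ (2 N)`,
`loss k (Δ + 1) N = 2 (loss k Δ (loss k Δ N) + 1) 2 ^ 2 ^ (2 N)`. -/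
def loss (k : ℕ) : ℕ → ℕ → ℕ
  | 0, N => 2 * ((N + k + 1) * 2 ^ (2 ^ (2 * N)))
  | Δ + 1, N => 2 * ((loss k Δ (loss k Δ N) + 1) * 2 ^ (2 ^ (2 * N)))

/-- `seeds k 0 = k`, `seeds k (Δ + 1) = loss k Δ (loss k Δ (width (Δ + 1))) + seeds k Δ`. -/
def seeds (k : ℕ) : ℕ → ℕ
  | 0 => k
  | Δ + 1 => loss k Δ (loss k Δ (width (Δ + 1))) + seeds k Δ

/-- `coeffs k 0 = k + 2`, `coeffs k (Δ + 1) = 2 coeffs k Δ + 2`. -/
def coeffs (k : ℕ) : ℕ → ℕ
  | 0 => k + 2
  | Δ + 1 => 2 * coeffs k Δ + 2

/-- The number `M = (r + 1) κ (coeffs k Δ) ^ r`. -/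
def params (r κ k Δ : ℕ) : ℕ := (r + 1) * (κ * coeffs k Δ ^ r)

/-- The number of blocks for `M` parameters: `M + L + seeds k (2 Δ)`, where `L` is the value of the
`M ^ 2`-fold iterate of `loss k (2 Δ)` at `M! (width (2 Δ)) ^ M`. -/
def blocksFor (k Δ M : ℕ) : ℕ :=
  M + (loss k (2 * Δ))^[M * M] (M.factorial * width (2 * Δ) ^ M) + seeds k (2 * Δ)

/-- The number of blocks. -/
def blocks (r κ k Δ : ℕ) : ℕ := r + blocksFor k Δ (params r κ k Δ)

/-- The hitting set: all the points `vec n K z w` with `K = blocks r κ k Δ` and all entries of `z, w`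
in `{0, 1, ..., d n}`. -/
def hittingSet (n r κ k Δ d : ℕ) : Finset (Fin n → ℤ) :=
  (Finset.univ : Finset ((Fin (blocks r κ k Δ) → Fin (d * n + 1)) ×
    (Fin (blocks r κ k Δ) → Fin (d * n + 1)))).image fun c =>
      vec n (blocks r κ k Δ) (fun j => ((c.1 j : ℕ) : ℤ)) (fun j => ((c.2 j : ℕ) : ℤ))

/-- Arithmetic formulas: the leaves are labelled by polynomials, the gates are additions and
multiplications. -/
inductive Formula (n : ℕ) : Type
  | leaf (T : MvPolynomial (Fin n) ℂ) : Formula n
  | add (f g : Formula n) : Formula n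
  | mul (f g : Formula n) : Formula n

namespace Formula

variable {n : ℕ}

/-- The variables occurring at the leaves of a formula. -/
noncomputable def vars : Formula n → Finset (Fin n)
  | leaf T => T.vars
  | add f g => f.vars ∪ g.vars
  | mul f g => f.vars ∪ g.vars

/-- All leaves are polynomials in at most `k` variables. -/
def LeafBound (k : ℕ) : Formula n → Prop
  | leaf T => T.vars.card ≤ k
  | add f g => f.LeafBound k ∧ g.LeafBound k
  | mul f g => f.LeafBound k ∧ g.LeafBound k

/-- The overlap depth: the maximal number, over all paths from the output to a leaf, of gates whose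
two subformulas have a variable in common. -/
noncomputable def overlap : Formula n → ℕ
  | leaf _ => 0
  | add f g => max f.overlap g.overlap + if Disjoint f.vars g.vars then 0 else 1
  | mul f g => max f.overlap g.overlap + if Disjoint f.vars g.vars then 0 else 1

/-- The polynomial computed by a formula. -/
noncomputable def poly : Formula n → MvPolynomial (Fin n) ℂ
  | leaf T => T
  | add f g => f.poly + g.poly
  | mul f g => f.poly * g.poly

end Formula

/-- Polynomials computed by formulas of overlap depth at most `Δ` whose leaves are polynomials in at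
most `k` variables. -/
def Computed (n k Δ : ℕ) : Set (MvPolynomial (Fin n) ℂ) :=
  {f | ∃ F : Formula n, F.LeafBound k ∧ F.overlap ≤ Δ ∧ F.poly = f}

/-- The factors: arbitrary polynomials in `κ` polynomials of `Computed n k Δ`. -/
def Factors (n κ k Δ : ℕ) : Set (MvPolynomial (Fin n) ℂ) :=
  {f | ∃ (A : Fin κ → MvPolynomial (Fin n) ℂ) (F : MvPolynomial (Fin κ) ℂ),
    (∀ j, A j ∈ Computed n k Δ) ∧ f = MvPolynomial.aeval A F}

/-- Finite products of factors. -/
noncomputable def Products (n κ k Δ : ℕ) : Submonoid (MvPolynomial (Fin n) ℂ) :=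
  Submonoid.closure (Factors n κ k Δ)

/-- Polynomials in products of factors, where no `r + 1` of the products are algebraically
independent (no condition if there are at most `r` products). -/
def Circuits (n r κ k Δ : ℕ) : Set (MvPolynomial (Fin n) ℂ) :=
  {f | ∃ (m : ℕ) (P : Fin m → MvPolynomial (Fin n) ℂ) (g : MvPolynomial (Fin m) ℂ),
    (∀ i, P i ∈ Products n κ k Δ) ∧
    (∀ s : Fin (r + 1) ↪ Fin m, ¬ AlgebraicIndependent ℂ fun i => P (s i)) ∧
    f = MvPolynomial.aeval P g}

open Pool.Agent.Helper62.VT (gpts gpts_card G_bound)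
open Pool.Agent.Helper91.Ov (OD Leaf Supp OdFactors od_hits)

theorem overlap_add {n : ℕ} {f g : Formula n} (h : Disjoint f.vars g.vars) :
    (Formula.add f g).overlap = max f.overlap g.overlap := by
  rw [Formula.overlap, if_pos h, add_zero]

theorem overlap_mul {n : ℕ} {f g : Formula n} (h : Disjoint f.vars g.vars) :
    (Formula.mul f g).overlap = max f.overlap g.overlap := by
  rw [Formula.overlap, if_pos h, add_zero]

theorem od_of_formula {n k : ℕ} (f : Formula n) (hf : f.LeafBound k) :
    OD k f.overlap f.vars f.poly := by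
  induction f with
  | leaf T =>
    apply OD.leaf
    refine ⟨T.vars, Finset.Subset.refl _, hf, ?_⟩
    exact MvPolynomial.mem_supported.2 (Set.Subset.refl _)
  | add f g ihf ihg =>
    have h1 := (ihf hf.1).mono (le_max_left f.overlap g.overlap)
    have h2 := (ihg hf.2).mono (le_max_right f.overlap g.overlap)
    by_cases hd : Disjoint f.vars g.vars
    · have e : (Formula.add f g).overlap = max f.overlap g.overlap := by
        rw [Formula.overlap, if_pos hd, add_zero]
      rw [e]
      exact h1.add hd h2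
    · have e : (Formula.add f g).overlap = max f.overlap g.overlap + 1 := by
        rw [Formula.overlap, if_neg hd]
      rw [e]
      exact (h1.mono_set Finset.subset_union_left).oadd (h2.mono_set Finset.subset_union_right)
  | mul f g ihf ihg =>
    have h1 := (ihf hf.1).mono (le_max_left f.overlap g.overlap)
    have h2 := (ihg hf.2).mono (le_max_right f.overlap g.overlap)
    by_cases hd : Disjoint f.vars g.vars
    · have e : (Formula.mul f g).overlap = max f.overlap g.overlap := by
        rw [Formula.overlap, if_pos hd, add_zero]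
      rw [e]
      exact h1.mul hd h2
    · have e : (Formula.mul f g).overlap = max f.overlap g.overlap + 1 := by
        rw [Formula.overlap, if_neg hd]
      rw [e]
      exact (h1.mono_set Finset.subset_union_left).omul (h2.mono_set Finset.subset_union_right)

theorem od_of_mem {n k Δ : ℕ} {f : MvPolynomial (Fin n) ℂ} (hf : f ∈ Computed n k Δ) :
    ∃ s, OD k Δ s f := by
  obtain ⟨F, h1, h2, rfl⟩ := hf
  exact ⟨F.vars, (od_of_formula F h1).mono h2⟩

theorem width_eq (Δ : ℕ) : Pool.Agent.Helper91.Ov.wd Δ = width Δ := by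
  induction Δ with
  | zero => rfl
  | succ Δ ih => rw [Pool.Agent.Helper91.Ov.wd, width, ih]

theorem loss_eq (k Δ : ℕ) : Pool.Agent.Helper91.Ov.loss k Δ = loss k Δ := by
  induction Δ with
  | zero => funext N; rfl
  | succ Δ ih =>
    funext N
    rw [Pool.Agent.Helper91.Ov.loss, loss, ih]

theorem seeds_eq (k Δ : ℕ) : Pool.Agent.Helper91.Ov.seeds k Δ = seeds k Δ := by
  induction Δ with
  | zero => rfl
  | succ Δ ih => rw [Pool.Agent.Helper91.Ov.seeds, seeds, ih, loss_eq, width_eq]

theorem coeffs_eq (k Δ : ℕ) : Pool.Agent.Helper91.Ov.par k Δ = coeffs k Δ := by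
  induction Δ with
  | zero => rfl
  | succ Δ ih => rw [Pool.Agent.Helper91.Ov.par, coeffs, ih]

theorem blocks_eq (r κ k Δ : ℕ) : r + Pool.Agent.Helper91.Ov.KR k Δ
    ((r + 1) * (κ * Pool.Agent.Helper91.Ov.par k Δ ^ r)) = blocks r κ k Δ := by
  rw [blocks, blocksFor, params, Pool.Agent.Helper91.Ov.KR, Pool.Agent.Helper91.Ov.supp,
    seeds_eq, loss_eq, width_eq, coeffs_eq]

theorem hittingSet_eq (n r κ k Δ d : ℕ) :
    hittingSet n r κ k Δ d = gpts n (blocks r κ k Δ) (d * n) := rfl

theorem hits {n r κ k Δ d : ℕ} {f : MvPolynomial (Fin n) ℂ} (hf : f ∈ Circuits n r κ k Δ)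
    (hd : f.totalDegree ≤ d) (h0 : f ≠ 0) :
    ∃ a ∈ hittingSet n r κ k Δ d, MvPolynomial.eval (fun i => ((a i : ℤ) : ℂ)) f ≠ 0 := by
  obtain ⟨m, P, g, hP, hr, rfl⟩ := hf
  have hsub : Factors n κ k Δ ⊆ OdFactors n k Δ κ := by
    rintro f ⟨A, F, hA, rfl⟩
    exact ⟨A, F, fun j => od_of_mem (hA j), rfl⟩
  have h := od_hits (κ := κ) P (fun i => Submonoid.closure_mono hsub (hP i)) (by
    intro s hs
    exact hr ⟨s, fun i j hij => hs.injective (by simp only [hij])⟩ hs) g h0 hd
  rw [blocks_eq] at h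
  rw [hittingSet_eq]
  exact h

theorem sum_mem {n r κ k Δ : ℕ} (P : Fin r → MvPolynomial (Fin n) ℂ)
    (hP : ∀ i, P i ∈ Products n κ k Δ) : ∑ i, P i ∈ Circuits n r κ k Δ := by
  refine ⟨r, P, ∑ i, MvPolynomial.X i, hP, ?_, ?_⟩
  · intro s
    have h := Fintype.card_le_of_embedding s
    rw [Fintype.card_fin, Fintype.card_fin] at h
    omega
  · rw [map_sum]
    exact Finset.sum_congr rfl fun i _ => (MvPolynomial.aeval_X _ _).symm

theorem leaf_mem {n k Δ : ℕ} {T : MvPolynomial (Fin n) ℂ} (hT : T.vars.card ≤ k) :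
    T ∈ Computed n k Δ := ⟨Formula.leaf T, hT, Nat.zero_le _, rfl⟩

theorem op_mem {n k Δ : ℕ} {f g : MvPolynomial (Fin n) ℂ} (hf : f ∈ Computed n k Δ)
    (hg : g ∈ Computed n k Δ) : f + g ∈ Computed n k (Δ + 1) ∧ f * g ∈ Computed n k (Δ + 1) := by
  obtain ⟨F, h1, h2, rfl⟩ := hf
  obtain ⟨G, h3, h4, rfl⟩ := hg
  have h5 : max F.overlap G.overlap ≤ Δ := max_le h2 h4
  have h6 : max F.overlap G.overlap + (if Disjoint F.vars G.vars then 0 else 1) ≤ Δ + 1 := by
    split_ifs <;> omega
  exact ⟨⟨Formula.add F G, ⟨h1, h3⟩, h6, rfl⟩, ⟨Formula.mul F G, ⟨h1, h3⟩, h6, rfl⟩⟩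

theorem vars_aeval_subset {n : ℕ} (l : Fin n) (q : Polynomial ℂ) :
    (Polynomial.aeval (MvPolynomial.X l : MvPolynomial (Fin n) ℂ) q).vars ⊆ {l} := by
  have h : Polynomial.aeval (MvPolynomial.X l : MvPolynomial (Fin n) ℂ) q ∈
      MvPolynomial.supported ℂ ({l} : Set (Fin n)) := by
    rw [MvPolynomial.supported]
    have h1 : (MvPolynomial.X l : MvPolynomial (Fin n) ℂ) ∈
        Algebra.adjoin ℂ (MvPolynomial.X '' ({l} : Set (Fin n))) :=
      Algebra.subset_adjoin ⟨l, rfl, rfl⟩
    rw [Polynomial.aeval_def, Polynomial.eval₂_eq_sum_range]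
    exact _root_.sum_mem fun i _ => mul_mem (Subalgebra.algebraMap_mem _ _) (pow_mem h1 _)
  have h2 := MvPolynomial.mem_supported.1 h
  intro x hx
  have h3 := h2 (Finset.mem_coe.2 hx)
  exact Finset.mem_singleton.2 h3

theorem sum_prod_mem {n k : ℕ} (hk : 1 ≤ k) (q : Fin n → Polynomial ℂ) :
    ∑ l, Polynomial.aeval (MvPolynomial.X l) (q l) ∈ Computed n k 0 ∧
    ∏ l, Polynomial.aeval (MvPolynomial.X l) (q l) ∈ Computed n k 0 := by
  classical
  have hv : ∀ l : Fin n, (Polynomial.aeval (MvPolynomial.X l : MvPolynomial (Fin n) ℂ)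
      (q l)).vars.card ≤ k := fun l =>
    (Finset.card_le_card (vars_aeval_subset l (q l))).trans (by rwa [Finset.card_singleton])
  have h : ∀ s : Finset (Fin n), ∃ F G : Formula n, (F.LeafBound k ∧ F.overlap ≤ 0 ∧
      F.vars ⊆ s ∧ F.poly = ∑ l ∈ s, Polynomial.aeval (MvPolynomial.X l) (q l)) ∧
      (G.LeafBound k ∧ G.overlap ≤ 0 ∧
      G.vars ⊆ s ∧ G.poly = ∏ l ∈ s, Polynomial.aeval (MvPolynomial.X l) (q l)) := by
    intro s
    induction s using Finset.induction_on with
    | empty =>
      refine ⟨Formula.leaf 0, Formula.leaf 1, ⟨?_, le_rfl, ?_, ?_⟩, ⟨?_, le_rfl, ?_, ?_⟩⟩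
      · change (0 : MvPolynomial (Fin n) ℂ).vars.card ≤ k
        rw [MvPolynomial.vars_0, Finset.card_empty]
        exact Nat.zero_le _
      · change (0 : MvPolynomial (Fin n) ℂ).vars ⊆ ∅
        rw [MvPolynomial.vars_0]
      · rw [Finset.sum_empty]
        rfl
      · change (1 : MvPolynomial (Fin n) ℂ).vars.card ≤ k
        rw [MvPolynomial.vars_one, Finset.card_empty]
        exact Nat.zero_le _
      · change (1 : MvPolynomial (Fin n) ℂ).vars ⊆ ∅
        rw [MvPolynomial.vars_one]
      · rw [Finset.prod_empty]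
        rfl
    | insert a s ha ih =>
      obtain ⟨F, G, ⟨h1, h2, h3, h4⟩, ⟨g1, g2, g3, g4⟩⟩ := ih
      have hd : ∀ t : Finset (Fin n), t ⊆ s → Disjoint
          (Polynomial.aeval (MvPolynomial.X a : MvPolynomial (Fin n) ℂ) (q a)).vars t := by
        intro t ht
        refine Disjoint.mono_left (vars_aeval_subset a (q a)) ?_
        exact Finset.disjoint_singleton_left.2 fun h => ha (ht h)
      have hu : ∀ t : Finset (Fin n), t ⊆ s →
          (Polynomial.aeval (MvPolynomial.X a : MvPolynomial (Fin n) ℂ) (q a)).vars ∪ t ⊆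
            insert a s := by
        intro t ht
        refine Finset.union_subset ((vars_aeval_subset a (q a)).trans ?_)
          (ht.trans (Finset.subset_insert a s))
        exact Finset.singleton_subset_iff.2 (Finset.mem_insert_self a s)
      refine ⟨Formula.add (Formula.leaf (Polynomial.aeval (MvPolynomial.X a) (q a))) F,
        Formula.mul (Formula.leaf (Polynomial.aeval (MvPolynomial.X a) (q a))) G,
        ⟨⟨hv a, h1⟩, ?_, hu _ h3, ?_⟩, ⟨⟨hv a, g1⟩, ?_, hu _ g3, ?_⟩⟩
      · rw [overlap_add (f := Formula.leaf (Polynomial.aeval (MvPolynomial.X a) (q a))) (g := F)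
          (hd _ h3)]
        exact max_le le_rfl h2
      · rw [Finset.sum_insert ha, ← h4]
        rfl
      · rw [overlap_mul (f := Formula.leaf (Polynomial.aeval (MvPolynomial.X a) (q a))) (g := G)
          (hd _ g3)]
        exact max_le le_rfl g2
      · rw [Finset.prod_insert ha, ← g4]
        rfl
  obtain ⟨F, G, ⟨h1, h2, -, h4⟩, ⟨g1, g2, -, g4⟩⟩ := h Finset.univ
  exact ⟨⟨F, h1, h2, h4⟩, ⟨G, g1, g2, g4⟩⟩

/-- Explicit hitting sets of size polynomial in `n` and `d`, for all fixed `r, κ, k, Δ`: size,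
coordinates, hitting property, and subclasses (sums of `r` products of factors; sums of `r`
multiples of powers of formulas; polynomials in at most `k` variables, sums and products of
univariate polynomials have formulas of overlap depth `0`; sums and products of two formulas of
overlap depth `Δ` have formulas of overlap depth `Δ + 1`). -/
theorem result (n r κ k Δ d : ℕ) :
    (hittingSet n r κ k Δ d).card ≤ (d * n + 1) ^ (2 * blocks r κ k Δ) ∧
    (∀ a ∈ hittingSet n r κ k Δ d, ∀ i,
      |a i| ≤ blocks r κ k Δ * (d * n) * (d * n + n) ^ n) ∧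
    (∀ f ∈ Circuits n r κ k Δ, f.totalDegree ≤ d → f ≠ 0 →
      ∃ a ∈ hittingSet n r κ k Δ d, MvPolynomial.eval (fun i => ((a i : ℤ) : ℂ)) f ≠ 0) ∧
    (∀ h : Fin r → List (MvPolynomial (Fin n) ℂ), (∀ i, ∀ q ∈ h i, q ∈ Factors n κ k Δ) →
      ∑ i, (h i).prod ∈ Circuits n r κ k Δ) ∧
    (∀ (c : Fin r → ℂ) (e : Fin r → ℕ) (q : Fin r → MvPolynomial (Fin n) ℂ),
      (∀ i, q i ∈ Computed n k Δ) →
        ∑ i, MvPolynomial.C (c i) * q i ^ e i ∈ Circuits n r 1 k Δ) ∧
    (∀ T : MvPolynomial (Fin n) ℂ, T.vars.card ≤ k → T ∈ Computed n k 0) ∧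
    (1 ≤ k → ∀ q : Fin n → Polynomial ℂ,
      ∑ l, Polynomial.aeval (MvPolynomial.X l) (q l) ∈ Computed n k 0 ∧
      ∏ l, Polynomial.aeval (MvPolynomial.X l) (q l) ∈ Computed n k 0) ∧
    (∀ f ∈ Computed n k Δ, ∀ g ∈ Computed n k Δ,
      f + g ∈ Computed n k (Δ + 1) ∧ f * g ∈ Computed n k (Δ + 1)) := by
  refine ⟨?_, ?_, fun f hf hd h0 => hits hf hd h0, ?_, ?_, fun T hT => leaf_mem hT,
    fun hk q => sum_prod_mem hk q, fun f hf g hg => op_mem hf hg⟩
  · rw [hittingSet_eq]
    exact gpts_card _ _ _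
  · intro a ha i
    rw [hittingSet_eq] at ha
    obtain ⟨⟨z, w⟩, -, rfl⟩ := Finset.mem_image.1 ha
    have h := G_bound n (blocks r κ k Δ) (d * n) z w i
    push_cast at h ⊢
    exact h
  · intro h hh
    exact sum_mem _ fun i => Submonoid.list_prod_mem _ fun q hq =>
      Submonoid.subset_closure (hh i q hq)
  · intro c e q hq
    refine sum_mem _ fun i => Submonoid.mul_mem _ (Submonoid.subset_closure ?_)
      (Submonoid.pow_mem _ (Submonoid.subset_closure ?_) _)
    · exact ⟨fun _ => q i, MvPolynomial.C (c i), fun _ => hq i, by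
        rw [MvPolynomial.aeval_C, MvPolynomial.algebraMap_eq]⟩
    · exact ⟨fun _ => q i, MvPolynomial.X 0, fun _ => hq i, by rw [MvPolynomial.aeval_X]⟩

end Pool.Agent.Results.MP_c2aa42_lc.ReadOnceFactors
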