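import Mathlib
import Pool.Agent.Helper4.RO.Factors

/-!
# Polynomial-size explicit hitting sets for sums of few products of constant-width branching
programs, each in its own unknown order of the variables

The factors considered here are arbitrary polynomials `F(A_1, ..., A_q)` in `q` polynomials, each of
which is computed by a read-once oblivious algebraic branching program (ROABP) of width `κ`. Every
one of these programs, in every factor, reads the variables in its own order; the orders are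
arbitrary and the hitting set does not depend on them (the case `q = 1`, `F = X` gives the programs
themselves, the case of linear `F` gives sums of `q` programs in different orders). The explicit
finite set `hittingSet n r q κ d` of integer points hits every nonzero polynomial of total degree at
most `d` which is a polynomial in products of such factors, no `r + 1` of these products being
algebraically independent. In particular it hits every nonzero sum of at most `r` products of
ROABPs of width `κ`; the number and the degrees of the factors are not bounded. For constant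
`r, q, κ` its size is polynomial in `n` and `d`.
-/

namespace Pool.Agent.Results.MP_c2aa42_lc.RoabpFactors

/-- The vector with coordinates `∑ j, z j * ∏ l ≠ i, (w j - l)` for `i = 0, ..., n - 1`. -/
def vec (n K : ℕ) (z w : Fin K → ℤ) (i : Fin n) : ℤ :=
  ∑ j, z j * ∏ l ∈ Finset.univ.erase i, (w j - ((l : ℕ) : ℤ))

/-- The number `T(W) = (2 W + 2) ^ (W + 1) + 1`. -/
def T (W : ℕ) : ℕ := (2 * W + 2) ^ (W + 1) + 1

/-- The number `M = (r + 1) q (r + 1) κ ^ 2`. -/
def params (r q κ : ℕ) : ℕ := (r + 1) * (q * ((r + 1) * κ ^ 2))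

/-- The number of blocks
`K = r + M + 1 + ∑ s = 1, ..., κ of T(κ ^ s) + T((κ ^ M * M!) ^ 2) ^ (2 ^ (M! * M))`. -/
def blocks (r q κ : ℕ) : ℕ :=
  r + params r q κ + 1 + ∑ s ∈ Finset.range κ, T (κ ^ (s + 1)) +
    T ((κ ^ params r q κ * (params r q κ).factorial) ^ 2) ^
      (2 ^ ((params r q κ).factorial * params r q κ))

/-- The hitting set: all the points `vec n K z w`, with `K = blocks r q κ` and all entries of `z, w`
in `{0, 1, ..., d n}`. -/
def hittingSet (n r q κ d : ℕ) : Finset (Fin n → ℤ) :=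
  (Finset.univ : Finset ((Fin (blocks r q κ) → Fin (d * n + 1)) ×
    (Fin (blocks r q κ) → Fin (d * n + 1)))).image fun c =>
      vec n (blocks r q κ) (fun j => ((c.1 j : ℕ) : ℤ)) (fun j => ((c.2 j : ℕ) : ℤ))

/-- The product of the matrices `A_0(x_{σ 0}), ..., A_{n-1}(x_{σ (n-1)})` of size `κ`, whose entries
are univariate polynomials. -/
noncomputable def prodMatrix {n κ : ℕ} (σ : Equiv.Perm (Fin n))
    (A : Fin n → Matrix (Fin κ) (Fin κ) (Polynomial ℂ)) :
    Matrix (Fin κ) (Fin κ) (MvPolynomial (Fin n) ℂ) :=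
  (List.ofFn fun l => (A l).map
    fun p => Polynomial.aeval (MvPolynomial.X (σ l) : MvPolynomial (Fin n) ℂ) p).prod

/-- Polynomials computed by read-once oblivious branching programs of width `κ` in any order `σ` of
the variables: `f = uᵀ A_0(x_{σ 0}) ⋯ A_{n-1}(x_{σ (n-1)}) v` with constant vectors `u, v`. -/
def Roabp (n κ : ℕ) : Set (MvPolynomial (Fin n) ℂ) :=
  {f | ∃ (σ : Equiv.Perm (Fin n)) (A : Fin n → Matrix (Fin κ) (Fin κ) (Polynomial ℂ))
    (u v : Fin κ → ℂ),
    f = ∑ i, ∑ j, MvPolynomial.C (u i) * prodMatrix σ A i j * MvPolynomial.C (v j)}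

/-- The factors: arbitrary polynomials in `q` polynomials of `Roabp n κ`, each with its own order of
the variables. -/
def Factors (n q κ : ℕ) : Set (MvPolynomial (Fin n) ℂ) :=
  {f | ∃ (A : Fin q → MvPolynomial (Fin n) ℂ) (F : MvPolynomial (Fin q) ℂ),
    (∀ j, A j ∈ Roabp n κ) ∧ f = MvPolynomial.aeval A F}

/-- Finite products of factors. -/
noncomputable def Products (n q κ : ℕ) : Submonoid (MvPolynomial (Fin n) ℂ) :=
  Submonoid.closure (Factors n q κ)

/-- Polynomials in products of factors, where no `r + 1` of the products are algebraically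
independent (no condition if there are at most `r` products). -/
def Circuits (n r q κ : ℕ) : Set (MvPolynomial (Fin n) ℂ) :=
  {f | ∃ (m : ℕ) (P : Fin m → MvPolynomial (Fin n) ℂ) (g : MvPolynomial (Fin m) ℂ),
    (∀ i, P i ∈ Products n q κ) ∧
    (∀ s : Fin (r + 1) ↪ Fin m, ¬ AlgebraicIndependent ℂ fun i => P (s i)) ∧
    f = MvPolynomial.aeval P g}

theorem roabp_iff {n κ : ℕ} (f : MvPolynomial (Fin n) ℂ) :
    f ∈ Roabp n κ ↔ Pool.Agent.Helper4.RO.IsRO κ f := by
  have h : ∀ (σ : Equiv.Perm (Fin n)) (A : Fin n → Matrix (Fin κ) (Fin κ) (Polynomial ℂ))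
      (u v : Fin κ → ℂ),
      ∑ i, ∑ j, MvPolynomial.C (u i) * prodMatrix σ A i j * MvPolynomial.C (v j) =
      ∑ i, ∑ j, MvPolynomial.C (u i * v j) * (List.ofFn fun l => (A l).map fun p =>
        Polynomial.aeval (MvPolynomial.X (σ l) : MvPolynomial (Fin n) ℂ) p).prod i j := by
    intro σ A u v
    refine Finset.sum_congr rfl fun i _ => Finset.sum_congr rfl fun j _ => ?_
    rw [MvPolynomial.C_mul, prodMatrix]
    ring
  constructor
  · rintro ⟨σ, A, u, v, rfl⟩
    exact ⟨σ, A, u, v, h σ A u v⟩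
  · rintro ⟨σ, A, u, v, rfl⟩
    exact ⟨σ, A, u, v, (h σ A u v).symm⟩

theorem factors_eq (n q κ : ℕ) : Factors n q κ = Pool.Agent.Helper4.RO.RoFactors n q κ := by
  ext f
  constructor
  · rintro ⟨A, F, hA, rfl⟩
    exact ⟨A, F, fun j => (roabp_iff _).1 (hA j), rfl⟩
  · rintro ⟨A, F, hA, rfl⟩
    exact ⟨A, F, fun j => (roabp_iff _).2 (hA j), rfl⟩

theorem blocks_eq (r q κ : ℕ) : blocks r q κ = Pool.Agent.Helper4.RO.KF r q κ := by
  rw [blocks, Pool.Agent.Helper4.RO.KF, Pool.Agent.Helper4.RO.Kdet, Pool.Agent.Helper4.RO.lev,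
    Pool.Agent.Helper4.RO.Nd, Pool.Agent.Helper4.RO.MF]
  have h : ∀ W, T W = Pool.Agent.Helper4.RO.Tb W := fun W => rfl
  have h2 : params r q κ = (r + 1) * (q * ((r + 1) * κ ^ 2)) := rfl
  simp only [h, ← h2]
  generalize Pool.Agent.Helper4.RO.Tb ((κ ^ params r q κ * (params r q κ).factorial) ^ 2) ^
    (2 ^ ((params r q κ).factorial * params r q κ)) = x
  generalize ∑ s ∈ Finset.range κ, Pool.Agent.Helper4.RO.Tb (κ ^ (s + 1)) = y
  omega

open Pool.Agent.Helper62.VT (pts)

theorem mem_pts_iff (n K b : ℕ) (a : Fin n → ℤ) : a ∈ pts n K (fun _ _ => 0) b ↔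
    a ∈ (Finset.univ : Finset ((Fin K → Fin (b + 1)) × (Fin K → Fin (b + 1)))).image fun c =>
      vec n K (fun j => ((c.1 j : ℕ) : ℤ)) (fun j => ((c.2 j : ℕ) : ℤ)) := by
  rw [pts, Finset.mem_image, Finset.mem_image]
  constructor
  · rintro ⟨⟨t, z, w⟩, -, rfl⟩
    refine ⟨(z, w), Finset.mem_univ _, ?_⟩
    funext l
    exact (zero_add _).symm
  · rintro ⟨⟨z, w⟩, -, rfl⟩
    refine ⟨(0, z, w), Finset.mem_univ _, ?_⟩
    funext l
    exact zero_add _

theorem hits {n r q κ d : ℕ} (hκ : 1 ≤ κ) {f : MvPolynomial (Fin n) ℂ} (hf : f ∈ Circuits n r q κ)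
    (hd : f.totalDegree ≤ d) (h0 : f ≠ 0) :
    ∃ a ∈ hittingSet n r q κ d, MvPolynomial.eval (fun i => ((a i : ℤ) : ℂ)) f ≠ 0 := by
  obtain ⟨m, P, g, hP, hr, rfl⟩ := hf
  obtain ⟨a, ha, h⟩ := Pool.Agent.Helper4.RO.factors_hit hκ P
    (fun i => by rw [← factors_eq]; exact hP i) (fun s hs =>
      hr ⟨s, fun i j hij => hs.injective (by simp only [hij])⟩ hs) g h0 hd
  refine ⟨a, ?_, h⟩
  rw [mem_pts_iff, ← blocks_eq] at ha
  exact ha

theorem sum_mem {n r q κ : ℕ} (P : Fin r → MvPolynomial (Fin n) ℂ)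
    (hP : ∀ i, P i ∈ Products n q κ) : ∑ i, P i ∈ Circuits n r q κ := by
  refine ⟨r, P, ∑ i, MvPolynomial.X i, hP, ?_, ?_⟩
  · intro s
    have h := Fintype.card_le_of_embedding s
    rw [Fintype.card_fin, Fintype.card_fin] at h
    omega
  · rw [map_sum]
    exact Finset.sum_congr rfl fun i _ => (MvPolynomial.aeval_X _ _).symm

/-- Explicit hitting sets of size polynomial in `n` and `d`, for all fixed `r, q` and `κ ≥ 1`: size,
coordinates, hitting property, and two subclasses (sums of `r` products of factors; sums of `r`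
products of polynomials of `Roabp n κ`, each factor with its own order of the variables). -/
theorem result (n r q κ d : ℕ) (hκ : 1 ≤ κ) :
    (hittingSet n r q κ d).card ≤ (d * n + 1) ^ (2 * blocks r q κ) ∧
    (∀ a ∈ hittingSet n r q κ d, ∀ i, |a i| ≤ blocks r q κ * (d * n) * (d * n + n) ^ n) ∧
    (∀ f ∈ Circuits n r q κ, f.totalDegree ≤ d → f ≠ 0 →
      ∃ a ∈ hittingSet n r q κ d, MvPolynomial.eval (fun i => ((a i : ℤ) : ℂ)) f ≠ 0) ∧
    (∀ h : Fin r → List (MvPolynomial (Fin n) ℂ), (∀ i, ∀ f ∈ h i, f ∈ Factors n q κ) →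
      ∑ i, (h i).prod ∈ Circuits n r q κ) ∧
    (∀ h : Fin r → List (MvPolynomial (Fin n) ℂ), (∀ i, ∀ f ∈ h i, f ∈ Roabp n κ) →
      ∑ i, (h i).prod ∈ Circuits n r 1 κ) := by
  have h4 : ∀ q' : ℕ, ∀ h : Fin r → List (MvPolynomial (Fin n) ℂ),
      (∀ i, ∀ f ∈ h i, f ∈ Factors n q' κ) → ∑ i, (h i).prod ∈ Circuits n r q' κ := by
    intro q' h hh
    exact sum_mem _ fun i => Submonoid.list_prod_mem _ fun f hf =>
      Submonoid.subset_closure (hh i f hf)
  refine ⟨?_, ?_, fun f hf hd h0 => hits hκ hf hd h0, h4 q, ?_⟩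
  · refine Finset.card_image_le.trans (le_of_eq ?_)
    rw [Finset.card_univ, Fintype.card_prod, Fintype.card_fun, Fintype.card_fin, Fintype.card_fin]
    ring
  · intro a ha i
    obtain ⟨⟨z, w⟩, -, rfl⟩ := Finset.mem_image.1 ha
    have h1 := Pool.Agent.Helper62.VT.G_bound n (blocks r q κ) (d * n) z w i
    push_cast at h1 ⊢
    exact h1
  · intro h hh
    refine h4 1 h fun i f hf => ⟨fun _ => f, MvPolynomial.X 0, fun _ => hh i f hf, ?_⟩
    rw [MvPolynomial.aeval_X]

end Pool.Agent.Results.MP_c2aa42_lc.RoabpFactors
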