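import Mathlib
import Pool.Agent.Helper62.VT.Separable

/-!
# Polynomial-size explicit hitting sets for sums of few products of separable polynomials

A polynomial in `n` variables is separable if it is a sum of univariate polynomials or a product of
univariate polynomials. The factors considered here are arbitrary polynomials `F(A_1, ..., A_κ)` in
`κ` separable polynomials. For all natural numbers `n, r, κ, d` the explicit finite set
`hittingSet n r κ d` of integer points hits every nonzero polynomial of total degree at most `d` which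
is a polynomial in products of such factors, no `r + 1` of these products being algebraically
independent. In particular it hits all nonzero sums of at most `r` products of factors. For `κ = 1`
this contains the circuits with constant top fan-in whose factors are sums of univariate polynomials
of unbounded degree; for general `κ` the factors can be arbitrary polynomials in `κ` affine forms,
in `κ` variables, or with `κ` monomials.

There is no bound on the number or on the degrees of the factors. The size of the hitting set is at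
most `(d (n + 1) + 1) ^ (2 (r + (r + 1) κ) + 1)`.
-/

namespace Pool.Agent.Results.MP_c2aa42_lc.SeparableFactors

/-- The vector with coordinates `∑ j, z j * ∏ l ≠ i, (w j - l)` for `i = 0, ..., n - 1`. -/
def vec (n K : ℕ) (z w : Fin K → ℤ) (i : Fin n) : ℤ :=
  ∑ j, z j * ∏ l ∈ Finset.univ.erase i, (w j - ((l : ℕ) : ℤ))

/-- The hitting set: all the points `(t, ..., t) + vec n K z w` with `K = r + (r + 1) κ` and `t` and
all entries of `z, w` in `{0, 1, ..., d (n + 1)}`. -/
def hittingSet (n r κ d : ℕ) : Finset (Fin n → ℤ) :=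
  (Finset.univ : Finset (Fin (d * (n + 1) + 1) ×
    (Fin (r + (r + 1) * κ) → Fin (d * (n + 1) + 1)) ×
    (Fin (r + (r + 1) * κ) → Fin (d * (n + 1) + 1)))).image fun c i =>
      ((c.1 : ℕ) : ℤ) + vec n (r + (r + 1) * κ) (fun j => ((c.2.1 j : ℕ) : ℤ))
        (fun j => ((c.2.2 j : ℕ) : ℤ)) i

/-- Sums of univariate polynomials. -/
def IsSum {n : ℕ} (A : MvPolynomial (Fin n) ℂ) : Prop :=
  ∃ q : Fin n → Polynomial ℂ, A = ∑ l, Polynomial.aeval (MvPolynomial.X l) (q l)

/-- Products of univariate polynomials. -/
def IsProd {n : ℕ} (A : MvPolynomial (Fin n) ℂ) : Prop :=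
  ∃ q : Fin n → Polynomial ℂ, A = ∏ l, Polynomial.aeval (MvPolynomial.X l) (q l)

/-- The factors: arbitrary polynomials in `κ` polynomials, each of which is a sum or a product of
univariate polynomials. -/
def Factors (n κ : ℕ) : Set (MvPolynomial (Fin n) ℂ) :=
  {f | ∃ (A : Fin κ → MvPolynomial (Fin n) ℂ) (F : MvPolynomial (Fin κ) ℂ),
    (∀ j, IsSum (A j) ∨ IsProd (A j)) ∧ f = MvPolynomial.aeval A F}

/-- Finite products of factors. -/
noncomputable def Products (n κ : ℕ) : Submonoid (MvPolynomial (Fin n) ℂ) :=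
  Submonoid.closure (Factors n κ)

/-- Polynomials in products of factors, where no `r + 1` of the products are algebraically
independent (no condition if there are at most `r` products). -/
def Circuits (n r κ : ℕ) : Set (MvPolynomial (Fin n) ℂ) :=
  {f | ∃ (m : ℕ) (P : Fin m → MvPolynomial (Fin n) ℂ) (g : MvPolynomial (Fin m) ℂ),
    (∀ i, P i ∈ Products n κ) ∧
    (∀ s : Fin (r + 1) ↪ Fin m, ¬ AlgebraicIndependent ℂ fun i => P (s i)) ∧
    f = MvPolynomial.aeval P g}

open Pool.Agent.Helper62.VT

theorem hittingSet_eq (n r κ d : ℕ) : hittingSet n r κ d =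
    pts n (r + (r + 1) * κ) (fun _ => (Polynomial.X : Polynomial ℤ).eval) (d * (n + 1)) := by
  have h : (fun _ => (Polynomial.X : Polynomial ℤ).eval : Fin n → ℤ → ℤ) = fun _ x => x := by
    funext _ x
    exact Polynomial.eval_X
  rw [h]
  rfl

theorem hits {n r κ d : ℕ} {f : MvPolynomial (Fin n) ℂ} (hf : f ∈ Circuits n r κ)
    (hd : f.totalDegree ≤ d) (h0 : f ≠ 0) :
    ∃ a ∈ hittingSet n r κ d, MvPolynomial.eval (fun i => ((a i : ℤ) : ℂ)) f ≠ 0 := by
  obtain ⟨m, P, g, hP, hr, rfl⟩ := hf
  rw [hittingSet_eq]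
  refine sep_hits P hP ?_ g h0 hd
  intro s hs
  exact hr ⟨s, fun i j hij => hs.injective (by simp only [hij])⟩ hs

theorem sum_mem {n r κ : ℕ} (P : Fin r → MvPolynomial (Fin n) ℂ)
    (hP : ∀ i, P i ∈ Products n κ) : ∑ i, P i ∈ Circuits n r κ := by
  refine ⟨r, P, ∑ i, MvPolynomial.X i, hP, ?_, ?_⟩
  · intro s
    have h := Fintype.card_le_of_embedding s
    rw [Fintype.card_fin, Fintype.card_fin] at h
    omega
  · rw [map_sum]
    exact Finset.sum_congr rfl fun i _ => (MvPolynomial.aeval_X _ _).symm

/-- Explicit hitting sets of size polynomial in `n` and `d`, for all fixed `r` and `κ`: size,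
coordinates, hitting property, and subclasses (sums of `r` products of factors; sums of `r`
products of sums of univariate polynomials; polynomials with at most `κ` monomials and polynomials
in `κ` affine forms are factors). -/
theorem result (n r κ d : ℕ) :
    (hittingSet n r κ d).card ≤ (d * (n + 1) + 1) ^ (2 * (r + (r + 1) * κ) + 1) ∧
    (∀ a ∈ hittingSet n r κ d, ∀ i, |a i| ≤
      d * (n + 1) + (r + (r + 1) * κ) * (d * (n + 1)) * (d * (n + 1) + n) ^ n) ∧
    (∀ f ∈ Circuits n r κ, f.totalDegree ≤ d → f ≠ 0 →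
      ∃ a ∈ hittingSet n r κ d, MvPolynomial.eval (fun i => ((a i : ℤ) : ℂ)) f ≠ 0) ∧
    (∀ h : Fin r → List (MvPolynomial (Fin n) ℂ), (∀ i, ∀ q ∈ h i, q ∈ Factors n κ) →
      ∑ i, (h i).prod ∈ Circuits n r κ) ∧
    (∀ h : Fin r → List (MvPolynomial (Fin n) ℂ), (∀ i, ∀ q ∈ h i, IsSum q) →
      ∑ i, (h i).prod ∈ Circuits n r 1) ∧
    (∀ q : MvPolynomial (Fin n) ℂ, q.support.card ≤ κ → q ∈ Factors n κ) ∧
    (∀ (c : Fin κ → ℂ) (u : Fin κ → Fin n → ℂ) (F : MvPolynomial (Fin κ) ℂ),
      MvPolynomial.aeval (fun j => MvPolynomial.C (c j) +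
        ∑ l, MvPolynomial.C (u j l) * MvPolynomial.X l) F ∈ Factors n κ) := by
  have h4 : ∀ κ' : ℕ, ∀ h : Fin r → List (MvPolynomial (Fin n) ℂ),
      (∀ i, ∀ q ∈ h i, q ∈ Factors n κ') → ∑ i, (h i).prod ∈ Circuits n r κ' := by
    intro κ' h hh
    exact sum_mem _ fun i => Submonoid.list_prod_mem _ fun q hq =>
      Submonoid.subset_closure (hh i q hq)
  refine ⟨?_, ?_, fun f hf hd h0 => hits hf hd h0, h4 κ, ?_, ?_, ?_⟩
  · rw [hittingSet_eq]
    exact pts_card _ _ _ _
  · intro a ha i
    rw [hittingSet_eq] at ha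
    refine (pts_bound_X _ _ _ a ha i).trans (le_of_eq ?_)
    push_cast
    ring
  · intro h hh
    refine h4 1 h fun i q hq => ⟨fun _ => q, MvPolynomial.X 0, fun _ => Or.inl (hh i q hq), ?_⟩
    rw [MvPolynomial.aeval_X]
  · classical
    intro q hq
    have hcard : Fintype.card q.support ≤ Fintype.card (Fin κ) := by
      rwa [Fintype.card_coe, Fintype.card_fin]
    obtain ⟨ι⟩ := Function.Embedding.nonempty_of_card_le hcard
    refine ⟨Function.extend ι (fun α => MvPolynomial.monomial α.1 1) 0,
      ∑ α : q.support, MvPolynomial.C (q.coeff α.1) * MvPolynomial.X (ι α), ?_, ?_⟩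
    · intro j
      by_cases hj : ∃ α, ι α = j
      · obtain ⟨α, rfl⟩ := hj
        rw [ι.injective.extend_apply]
        right
        refine ⟨fun l => Polynomial.X ^ (α.1 l), ?_⟩
        rw [MvPolynomial.monomial_eq, MvPolynomial.C_1, one_mul, Finsupp.prod_fintype _ _
          (fun l => pow_zero _)]
        exact Finset.prod_congr rfl fun l _ => by rw [map_pow, Polynomial.aeval_X]
      · rw [Function.extend_apply' _ _ _ hj]
        left
        exact ⟨fun _ => 0, by simp⟩
    · rw [map_sum]
      conv_lhs => rw [q.as_sum]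
      rw [← Finset.sum_coe_sort]
      refine Finset.sum_congr rfl fun α _ => ?_
      rw [map_mul, MvPolynomial.aeval_C, MvPolynomial.aeval_X, ι.injective.extend_apply,
        MvPolynomial.algebraMap_eq, MvPolynomial.C_mul_monomial, mul_one]
  · intro c u F
    refine ⟨fun j => ∑ l, MvPolynomial.C (u j l) * MvPolynomial.X l,
      MvPolynomial.aeval (fun j => MvPolynomial.C (c j) + MvPolynomial.X j) F, ?_, ?_⟩
    · intro j
      left
      refine ⟨fun l => Polynomial.C (u j l) * Polynomial.X, ?_⟩
      refine Finset.sum_congr rfl fun l _ => ?_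
      rw [map_mul, Polynomial.aeval_C, Polynomial.aeval_X, MvPolynomial.algebraMap_eq]
    · rw [MvPolynomial.comp_aeval_apply]
      congr 2
      funext j
      rw [map_add, MvPolynomial.aeval_X, MvPolynomial.aeval_C, MvPolynomial.algebraMap_eq]

end Pool.Agent.Results.MP_c2aa42_lc.SeparableFactors
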