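import Mathlib
import Pool.Agent.Helper62.VT.Sparse
import Pool.Agent.Helper62.VT.Separable

/-!
# Polynomial-size explicit hitting sets for sums of few products of sparse polynomials of bounded
individual degree

The factors considered here are arbitrary polynomials `F(A_1, ..., A_κ)` in `κ` polynomials with at
most `S` monomials and of individual degrees at most `δ` (the case `κ = 1`, `F = X` gives the sparse
polynomials of bounded individual degree themselves). The explicit finite set
`hittingSet n r κ S δ N d` of integer points hits every nonzero polynomial of total degree at most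
`d` which is a polynomial in products of at most `N` such factors, no `r + 1` of these products being
algebraically independent. In particular it hits every nonzero sum of at most `r` such products,
i.e. the depth-4 circuits with constant top fan-in `r` whose bottom polynomials have bounded
individual degree. For constant `r, κ, δ` its size is polynomial in `n, S, N, d`.
-/

namespace Pool.Agent.Results.MP_c2aa42_lc.SparseFactors

/-- The vector with coordinates `∑ j, z j * ∏ l ≠ i, (w j - l)` for `i = 0, ..., n - 1`. -/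
def vec (n K : ℕ) (z w : Fin K → ℤ) (i : Fin n) : ℤ :=
  ∑ j, z j * ∏ l ∈ Finset.univ.erase i, (w j - ((l : ℕ) : ℤ))

/-- The number `M = (r + 1) κ (δ + 1) ^ r`. -/
def params (r κ δ : ℕ) : ℕ := (r + 1) * (κ * (δ + 1) ^ r)

/-- The bound `p₀` for the moduli, polynomial in `n, S, N` for constant `r, κ, δ`. -/
def modBound (n r κ S δ N : ℕ) : ℕ :=
  2 * ((r * N + 1) ^ (r + 1) * ((params r κ δ).factorial * S ^ params r κ δ) *
    (n * (Nat.log 2 (params r κ δ * δ + 1) + 1))) + 4

/-- The bound `b` for the parameters `t, z, w` of the points. -/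
def range (n r κ S δ N d : ℕ) : ℕ := d * (modBound n r κ S δ N + n)

/-- The hitting set: all the points with coordinates `t ^ ((M δ + 1) ^ i mod p) + vec n K z w i`,
with `1 ≤ p ≤ modBound n r κ S δ N`, `K = r + M`, and `t` and all entries of `z, w` in
`{0, 1, ..., range n r κ S δ N d}`. -/
def hittingSet (n r κ S δ N d : ℕ) : Finset (Fin n → ℤ) :=
  (Finset.Icc 1 (modBound n r κ S δ N)).biUnion fun p =>
    (Finset.univ : Finset (Fin (range n r κ S δ N d + 1) ×
      (Fin (r + params r κ δ) → Fin (range n r κ S δ N d + 1)) ×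
      (Fin (r + params r κ δ) → Fin (range n r κ S δ N d + 1)))).image fun c i =>
        ((c.1 : ℕ) : ℤ) ^ ((params r κ δ * δ + 1) ^ (i : ℕ) % p) +
          vec n (r + params r κ δ) (fun j => ((c.2.1 j : ℕ) : ℤ))
            (fun j => ((c.2.2 j : ℕ) : ℤ)) i

/-- Polynomials with at most `S` monomials and individual degrees at most `δ`. -/
def Sparse (n S δ : ℕ) : Set (MvPolynomial (Fin n) ℂ) :=
  {A | A.support.card ≤ S ∧ ∀ l, A.degreeOf l ≤ δ}

/-- The factors: arbitrary polynomials in `κ` polynomials of `Sparse n S δ`. -/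
def Factors (n κ S δ : ℕ) : Set (MvPolynomial (Fin n) ℂ) :=
  {f | ∃ (A : Fin κ → MvPolynomial (Fin n) ℂ) (F : MvPolynomial (Fin κ) ℂ),
    (∀ j, A j ∈ Sparse n S δ) ∧ f = MvPolynomial.aeval A F}

/-- Products of at most `N` factors. -/
def Products (n κ S δ N : ℕ) : Set (MvPolynomial (Fin n) ℂ) :=
  {P | ∃ L : List (MvPolynomial (Fin n) ℂ), L.length ≤ N ∧ (∀ q ∈ L, q ∈ Factors n κ S δ) ∧
    P = L.prod}

/-- Polynomials in products of at most `N` factors, where no `r + 1` of the products are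
algebraically independent (no condition if there are at most `r` products). -/
def Circuits (n r κ S δ N : ℕ) : Set (MvPolynomial (Fin n) ℂ) :=
  {f | ∃ (m : ℕ) (P : Fin m → MvPolynomial (Fin n) ℂ) (g : MvPolynomial (Fin m) ℂ),
    (∀ i, P i ∈ Products n κ S δ N) ∧
    (∀ s : Fin (r + 1) ↪ Fin m, ¬ AlgebraicIndependent ℂ fun i => P (s i)) ∧
    f = MvPolynomial.aeval P g}

open Pool.Agent.Helper62.VT

theorem hittingSet_eq (n r κ S δ N d : ℕ) : hittingSet n r κ S δ N d =
    (Finset.Icc 1 (BS n r κ S δ N)).biUnion fun p => pts n (r + MS r κ δ)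
      (fun l => ((Polynomial.X : Polynomial ℤ) ^ ((MS r κ δ * δ + 1) ^ (l : ℕ) % p)).eval)
        (d * (BS n r κ S δ N + n)) := by
  have h : ∀ p, (fun l : Fin n => ((Polynomial.X : Polynomial ℤ) ^
      ((MS r κ δ * δ + 1) ^ (l : ℕ) % p)).eval) =
      fun (l : Fin n) (x : ℤ) => x ^ ((MS r κ δ * δ + 1) ^ (l : ℕ) % p) := by
    intro p
    funext l x
    rw [Polynomial.eval_pow, Polynomial.eval_X]
  simp only [h]
  rfl

theorem hits {n r κ S δ N d : ℕ} {f : MvPolynomial (Fin n) ℂ} (hf : f ∈ Circuits n r κ S δ N)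
    (hd : f.totalDegree ≤ d) (h0 : f ≠ 0) :
    ∃ a ∈ hittingSet n r κ S δ N d, MvPolynomial.eval (fun i => ((a i : ℤ) : ℂ)) f ≠ 0 := by
  obtain ⟨m, P, g, hP, hr, rfl⟩ := hf
  obtain ⟨p, hp1, hp2, a, ha, hne⟩ := sparse_hits (κ := κ) (S := S) (δ := δ) (N := N) P hP (by
    intro s hs
    exact hr ⟨s, fun i j hij => hs.injective (by simp only [hij])⟩ hs) g h0 hd
  refine ⟨a, ?_, hne⟩
  rw [hittingSet_eq, Finset.mem_biUnion]
  exact ⟨p, Finset.mem_Icc.2 ⟨hp1, hp2⟩, ha⟩

theorem sum_mem {n r κ S δ N : ℕ} (P : Fin r → MvPolynomial (Fin n) ℂ)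
    (hP : ∀ i, P i ∈ Products n κ S δ N) : ∑ i, P i ∈ Circuits n r κ S δ N := by
  refine ⟨r, P, ∑ i, MvPolynomial.X i, hP, ?_, ?_⟩
  · intro s
    have h := Fintype.card_le_of_embedding s
    rw [Fintype.card_fin, Fintype.card_fin] at h
    omega
  · rw [map_sum]
    exact Finset.sum_congr rfl fun i _ => (MvPolynomial.aeval_X _ _).symm

theorem bound (n r κ S δ N d : ℕ) (a : Fin n → ℤ) (ha : a ∈ hittingSet n r κ S δ N d) (i : Fin n) :
    |a i| ≤ ((range n r κ S δ N d : ℤ) + 1) ^ modBound n r κ S δ N +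
      (r + params r κ δ) * range n r κ S δ N d * (range n r κ S δ N d + n) ^ n := by
  obtain ⟨p, hp, ha⟩ := Finset.mem_biUnion.1 ha
  obtain ⟨⟨t, z, w⟩, -, rfl⟩ := Finset.mem_image.1 ha
  refine (abs_add_le _ _).trans (add_le_add ?_ ?_)
  · rw [abs_of_nonneg (by positivity)]
    have h1 : ((t : ℕ) : ℤ) ≤ (range n r κ S δ N d : ℤ) + 1 := by
      exact_mod_cast t.2.le
    have h2 : (1 : ℤ) ≤ (range n r κ S δ N d : ℤ) + 1 := by
      have : (0 : ℤ) ≤ (range n r κ S δ N d : ℤ) := by positivity
      omega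
    refine (pow_le_pow_left₀ (by positivity) h1 _).trans (pow_le_pow_right₀ h2 ?_)
    exact (Nat.mod_lt _ (Finset.mem_Icc.1 hp).1).le.trans (Finset.mem_Icc.1 hp).2
  · have h1 := G_bound n (r + params r κ δ) (range n r κ S δ N d) z w i
    push_cast at h1
    exact h1

/-- Explicit hitting sets of size polynomial in `n, S, N, d`, for all fixed `r, κ, δ`: size,
coordinates, hitting property, and two subclasses (sums of `r` products of at most `N` factors; sums
of `r` products of at most `N` polynomials with at most `S` monomials and individual degrees at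
most `δ`). -/
theorem result (n r κ S δ N d : ℕ) :
    (hittingSet n r κ S δ N d).card ≤ modBound n r κ S δ N *
      (range n r κ S δ N d + 1) ^ (2 * (r + params r κ δ) + 1) ∧
    (∀ a ∈ hittingSet n r κ S δ N d, ∀ i, |a i| ≤
      ((range n r κ S δ N d : ℤ) + 1) ^ modBound n r κ S δ N +
        (r + params r κ δ) * range n r κ S δ N d * (range n r κ S δ N d + n) ^ n) ∧
    (∀ f ∈ Circuits n r κ S δ N, f.totalDegree ≤ d → f ≠ 0 →
      ∃ a ∈ hittingSet n r κ S δ N d, MvPolynomial.eval (fun i => ((a i : ℤ) : ℂ)) f ≠ 0) ∧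
    (∀ h : Fin r → List (MvPolynomial (Fin n) ℂ), (∀ i, (h i).length ≤ N) →
      (∀ i, ∀ q ∈ h i, q ∈ Factors n κ S δ) → ∑ i, (h i).prod ∈ Circuits n r κ S δ N) ∧
    (∀ h : Fin r → List (MvPolynomial (Fin n) ℂ), (∀ i, (h i).length ≤ N) →
      (∀ i, ∀ q ∈ h i, q ∈ Sparse n S δ) → ∑ i, (h i).prod ∈ Circuits n r 1 S δ N) := by
  refine ⟨?_, bound n r κ S δ N d, fun f hf hd h0 => hits hf hd h0, ?_, ?_⟩
  · rw [hittingSet_eq]
    refine Finset.card_biUnion_le.trans ?_
    refine (Finset.sum_le_card_nsmul _ _ _ fun p _ => pts_card _ _ _ _).trans ?_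
    rw [Nat.card_Icc, smul_eq_mul, Nat.add_sub_cancel]
    exact le_rfl
  · intro h h1 h2
    exact sum_mem _ fun i => ⟨h i, h1 i, h2 i, rfl⟩
  · intro h h1 h2
    refine sum_mem _ fun i => ⟨h i, h1 i, fun q hq => ?_, rfl⟩
    exact ⟨fun _ => q, MvPolynomial.X 0, fun _ => h2 i q hq, by rw [MvPolynomial.aeval_X]⟩

end Pool.Agent.Results.MP_c2aa42_lc.SparseFactors
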